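import Mathlib
import Pool.Agent.Y863.AA.Msz

/-! Project SU: four classes of shifts whose differences are `2 j k`, `k` in a dense set. -/

set_option autoImplicit false

open Finset Filter Topology

namespace Pool.Agent.Y827.SU

/-- the classes of the base points -/
def cg (t : Bool) (g : Fin 4) : ℕ := if t then g else ![0, 1, 3, 4] g

theorem cg_le (t : Bool) (g : Fin 4) : cg t g ≤ if t then 3 else 4 := by
  revert t g; decide

theorem cg_inj (t : Bool) (g g' : Fin 4) (h : g ≠ g') : cg t g ≠ cg t g' := by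
  revert t g g'; decide

/-- the number of the multiples -/
def R3 (k : ℕ) : ℕ := if 3 ∣ k then 3 else 4

theorem cg_adm (t : Bool) (p : ℕ) (hp : p.Prime) (h2 : p ≠ 2) (h3 : t = true → p ≠ 3) :
    ∃ m : ℤ, ∀ g, ¬ (p : ℤ) ∣ m + cg t g := by
  have hp3 : 3 ≤ p := by
    have := hp.two_le
    omega
  have key : ∀ z : ℤ, z ≠ 0 → |z| < p → ¬ (p : ℤ) ∣ z := fun z hz hz2 hd =>
    hz (Int.eq_zero_of_abs_lt_dvd hd hz2)
  cases t with
  | true =>
    have hp4 : p ≠ 4 := by rintro rfl; exact absurd hp (by norm_num)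
    have hp5 : 5 ≤ p := by
      have := h3 rfl
      omega
    refine ⟨1, fun g => key _ ?_ ?_⟩
    · have : 0 ≤ (cg true g : ℤ) := Int.natCast_nonneg _
      omega
    · have h1 := cg_le true g
      simp only [if_true] at h1
      rw [abs_of_nonneg (by positivity)]
      omega
  | false =>
    refine ⟨-2, fun g => key _ ?_ ?_⟩
    · revert g; decide
    · have : |(-2 : ℤ) + cg false g| ≤ 2 := by
        revert g; decide
      omega

open Classical in
/-- four classes of shifts all of whose differences are `2 j k`, `k` in the given dense set -/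
theorem build (K : ℕ) (hK : 1 ≤ K) (ε : ℝ) (hε : 0 < ε) : ∃ L : ℕ, 1 ≤ L ∧ ∀ B : ℕ, ∃ B0 : ℕ, ∀ u H : ℕ,
    L ≤ H → u + H ≤ B → ∀ Bad : Finset ℕ, Bad ⊆ Ioc u (u + H) → ε * H < (Bad.card : ℝ) →
    ∃ Hh : Fin 4 → Fin K → ℕ, Function.Injective (fun y : Fin 4 × Fin K => Hh y.1 y.2) ∧
      (∀ g i, Hh g i ≤ B0) ∧
      (∀ p : ℕ, p.Prime → p ≤ 4 * K → ∃ r : ℤ, ∀ g i, ¬ (p : ℤ) ∣ r + Hh g i) ∧
      ∀ g i g' i', g ≠ g' → Hh g' i' < Hh g i → ∃ k ∈ Bad, ∃ j, 1 ≤ j ∧ j ≤ R3 k ∧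
        Hh g i - Hh g' i' = 2 * (j * k) := by
  obtain ⟨G, hG⟩ : ∃ G, G = (4 * K).factorial := ⟨_, rfl⟩
  have hG0 : 0 < G := by rw [hG]; exact Nat.factorial_pos _
  -- the shape
  obtain ⟨n, hn1, hmsz⟩ := Pool.Agent.Y863.AA.msz (Fin (8 * K + 1) × Fin 4) (ε / 2) (by positivity)
  obtain ⟨W, hW⟩ : ∃ W, W = 12 * G * (4 * K) := ⟨_, rfl⟩
  let v : Fin (8 * K + 1) × Fin 4 → ℤ := fun a =>
    ((![12, 6, 4, 3] a.2 : ℕ) : ℤ) * G * ((a.1 : ℕ) - (4 * K : ℕ) : ℤ)
  have hv : ∀ a, |v a| ≤ W := by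
    intro a
    have h1 : |((a.1 : ℕ) - (4 * K : ℕ) : ℤ)| ≤ (4 * K : ℕ) := by
      have := a.1.2
      rw [abs_le]
      constructor <;> omega
    have h2 : (![12, 6, 4, 3] a.2 : ℕ) ≤ 12 := by
      generalize a.2 = b
      revert b; decide
    show |((![12, 6, 4, 3] a.2 : ℕ) : ℤ) * G * ((a.1 : ℕ) - (4 * K : ℕ) : ℤ)| ≤ W
    rw [abs_mul, hW, abs_of_nonneg (by positivity)]
    push_cast at h1 ⊢
    apply mul_le_mul _ h1 (abs_nonneg _) (by positivity)
    apply mul_le_mul_of_nonneg_right _ (by positivity)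
    exact_mod_cast h2
  refine ⟨n * W + 1, by omega, fun B => ?_⟩
  obtain ⟨B0, hB0⟩ : ∃ B0, B0 = 2 * (4 * B + 12 * G * n * (4 * K)) := ⟨_, rfl⟩
  refine ⟨B0, fun u H hLH hB Bad hBad hcon => ?_⟩
  -- one of the two types
  obtain ⟨t, B₁, hB₁', hB₁t, hB₁c⟩ : ∃ (t : Bool) (B₁ : Finset ℕ), B₁ ⊆ Bad ∧
      (∀ k ∈ B₁, (t = true ↔ 3 ∣ k)) ∧ ε / 2 * H ≤ (B₁.card : ℝ) := by
    have h1 := card_filter_add_card_filter_not (s := Bad) (fun k => 3 ∣ k)
    have h1r : ((Bad.filter (fun k => 3 ∣ k)).card : ℝ) + ((Bad.filter (fun k => ¬ 3 ∣ k)).card : ℝ) =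
        (Bad.card : ℝ) := by exact_mod_cast h1
    rcases le_or_gt (ε / 2 * H) ((Bad.filter (fun k => 3 ∣ k)).card : ℝ) with h2 | h2
    · exact ⟨true, Bad.filter (fun k => 3 ∣ k), filter_subset _ _,
        fun k hk => by simp [(mem_filter.1 hk).2], h2⟩
    · exact ⟨false, Bad.filter (fun k => ¬ 3 ∣ k), filter_subset _ _,
        fun k hk => by simp [(mem_filter.1 hk).2], by linarith⟩
  have hB₁ : B₁ ⊆ Ioc u (u + H) := hB₁'.trans hBad
  -- homothetic copies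
  have hH1 : 1 ≤ H := by omega
  have hinj1 : Set.InjOn (fun k => k - u) (B₁ : Set ℕ) := by
    intro a ha b hb hab
    have h1 := mem_Ioc.1 (hB₁ (mem_coe.1 ha))
    have h2 := mem_Ioc.1 (hB₁ (mem_coe.1 hb))
    simp only at hab
    omega
  obtain ⟨z, l, hl1, hln, hz⟩ := hmsz v W hv H (by omega) hH1 (B₁.image (fun k => k - u)) (by
    intro k hk
    obtain ⟨k', hk', rfl⟩ := mem_image.1 hk
    have h1 := mem_Ioc.1 (hB₁ hk')
    rw [mem_Ioc]
    omega) (by rw [card_image_of_injOn hinj1]; exact hB₁c)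
  have hz' : ∀ a, ∃ k ∈ B₁, z + u + l * v a = (k : ℤ) := by
    intro a
    obtain ⟨k, hk, hk2⟩ := hz a
    obtain ⟨k', hk', rfl⟩ := mem_image.1 hk
    refine ⟨k', hk', ?_⟩
    have h1 := mem_Ioc.1 (hB₁ hk')
    have e : ((k' - u : ℕ) : ℤ) = (k' : ℤ) - u := Nat.cast_sub (by omega)
    rw [e] at hk2
    linarith
  obtain ⟨a₀, ha₀, ha₀e⟩ := hz' (⟨4 * K, by omega⟩, 0)
  have ha₀z : z + u = (a₀ : ℤ) := by
    rw [← ha₀e]
    show z + u = z + u + l * (((![12, 6, 4, 3] (0 : Fin 4) : ℕ) : ℤ) * G * (((4 * K : ℕ) : ℤ) - (4 * K : ℕ)))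
    ring
  have ha₀B := mem_Ioc.1 (hB₁ ha₀)
  -- the classes
  let tt : Fin 4 → Fin K → ℕ := fun g i => g * K + i
  have htt : ∀ g i, tt g i < 4 * K := by
    intro g i
    have h1 := i.2
    have h2 : (g : ℕ) * K ≤ 3 * K := Nat.mul_le_mul_right _ (by have := g.2; omega)
    show (g : ℕ) * K + i < 4 * K
    omega
  let Hh : Fin 4 → Fin K → ℕ := fun g i => 2 * (cg t g * a₀ + 12 * G * l * tt g i)
  have hdiff : ∀ g i g' i', cg t g' < cg t g → ∃ k ∈ B₁,
      Hh g i = Hh g' i' + 2 * ((cg t g - cg t g') * k) := by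
    intro g i g' i' hlt
    obtain ⟨j, hj⟩ : ∃ j, j = cg t g - cg t g' := ⟨_, rfl⟩
    have hj1 : 1 ≤ j := by omega
    have hj4 : j ≤ 4 := by
      have h1 := cg_le t g
      have h2 : (if t = true then 3 else 4) ≤ 4 := by split_ifs <;> omega
      omega
    obtain ⟨q, hq⟩ : ∃ q : Fin 4, (![12, 6, 4, 3] q : ℕ) * j = 12 := by
      have : j = 1 ∨ j = 2 ∨ j = 3 ∨ j = 4 := by omega
      rcases this with rfl | rfl | rfl | rfl
      · exact ⟨0, rfl⟩
      · exact ⟨1, rfl⟩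
      · exact ⟨2, rfl⟩
      · exact ⟨3, rfl⟩
    have h1 := htt g i
    have h2 := htt g' i'
    obtain ⟨k, hk, hk2⟩ := hz' (⟨4 * K + tt g i - tt g' i', by omega⟩, q)
    refine ⟨k, hk, ?_⟩
    rw [← hj]
    have e1 : ((4 * K + tt g i - tt g' i' : ℕ) : ℤ) = (4 * K : ℕ) + tt g i - tt g' i' := by
      rw [Nat.cast_sub (by omega)]
      push_cast
      ring
    have hk3 : (a₀ : ℤ) + l * (((![12, 6, 4, 3] q : ℕ) : ℤ) * G * ((tt g i : ℤ) - tt g' i')) = k := by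
      rw [← hk2, ha₀z]
      show (a₀ : ℤ) + l * (((![12, 6, 4, 3] q : ℕ) : ℤ) * G * ((tt g i : ℤ) - tt g' i')) =
        (a₀ : ℤ) + l * (((![12, 6, 4, 3] q : ℕ) : ℤ) * G * (((4 * K + tt g i - tt g' i' : ℕ) : ℤ) - (4 * K : ℕ)))
      rw [e1]
      ring
    have hq' : (((![12, 6, 4, 3] q : ℕ) : ℤ)) * j = 12 := by exact_mod_cast hq
    have e2 : (cg t g : ℤ) = cg t g' + j := by
      rw [hj, Nat.cast_sub hlt.le]
      ring
    have e3 : ((Hh g i : ℕ) : ℤ) = ((Hh g' i' + 2 * (j * k) : ℕ) : ℤ) := by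
      show ((2 * (cg t g * a₀ + 12 * G * l * tt g i) : ℕ) : ℤ) =
        ((2 * (cg t g' * a₀ + 12 * G * l * tt g' i') + 2 * (j * k) : ℕ) : ℤ)
      push_cast
      rw [e2, ← hk3]
      linear_combination (-2 * (G : ℤ) * l * ((tt g i : ℤ) - tt g' i')) * hq'
    exact_mod_cast e3
  have hkpos : ∀ k ∈ B₁, 1 ≤ k := by
    intro k hk
    have := mem_Ioc.1 (hB₁ hk)
    omega
  have hinj : Function.Injective (fun y : Fin 4 × Fin K => Hh y.1 y.2) := by
    rintro ⟨g, i⟩ ⟨g', i'⟩ hy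
    simp only at hy
    rcases lt_trichotomy (cg t g) (cg t g') with h1 | h1 | h1
    · exfalso
      obtain ⟨k, hk, he⟩ := hdiff g' i' g i h1
      have h2 := hkpos k hk
      have h3 : 1 ≤ (cg t g' - cg t g) * k := Nat.mul_pos (by omega) h2
      omega
    · have hgg : g = g' := by
        by_contra hne
        exact cg_inj t g g' hne h1
      subst hgg
      have h2 : 2 * (cg t g * a₀ + 12 * G * l * tt g i) = 2 * (cg t g * a₀ + 12 * G * l * tt g i') := hy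
      have h3 : 12 * G * l * tt g i = 12 * G * l * tt g i' := by omega
      have h4 : tt g i = tt g i' := Nat.eq_of_mul_eq_mul_left (by positivity) h3
      have h5 : (g : ℕ) * K + i = g * K + i' := h4
      rw [Prod.mk.injEq]
      exact ⟨rfl, Fin.ext (by omega)⟩
    · exfalso
      obtain ⟨k, hk, he⟩ := hdiff g i g' i' h1
      have h2 := hkpos k hk
      have h3 : 1 ≤ (cg t g - cg t g') * k := Nat.mul_pos (by omega) h2
      omega
  have hbd : ∀ g i, Hh g i ≤ B0 := by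
    intro g i
    have h1 : cg t g ≤ 4 := by
      have h1 := cg_le t g
      have h2 : (if t = true then 3 else 4) ≤ 4 := by split_ifs <;> omega
      omega
    have h2 : cg t g * a₀ ≤ 4 * B := Nat.mul_le_mul h1 (by omega)
    have h3 : 12 * G * l * tt g i ≤ 12 * G * n * (4 * K) :=
      Nat.mul_le_mul (Nat.mul_le_mul_left _ hln) (htt g i).le
    show 2 * (cg t g * a₀ + 12 * G * l * tt g i) ≤ B0
    rw [hB0]
    omega
  have hadm : ∀ p : ℕ, p.Prime → p ≤ 4 * K → ∃ r : ℤ, ∀ g i, ¬ (p : ℤ) ∣ r + Hh g i := by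
    intro p hp hpK
    have hpG : (p : ℤ) ∣ G := by
      rw [hG]
      exact_mod_cast Nat.dvd_factorial hp.pos hpK
    have hp1 : ¬ (p : ℤ) ∣ 1 := by
      intro hd
      have : p ∣ 1 := by exact_mod_cast hd
      exact hp.one_lt.ne' (Nat.dvd_one.1 this)
    by_cases h2 : p = 2
    · subst h2
      refine ⟨1, fun g i hd => ?_⟩
      apply hp1
      have h3 : ((2 : ℕ) : ℤ) ∣ (Hh g i : ℤ) := by
        exact_mod_cast Dvd.intro _ rfl
      exact (dvd_add_left h3).1 hd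
    by_cases hpa : (p : ℤ) ∣ a₀
    · refine ⟨1, fun g i hd => ?_⟩
      apply hp1
      have h3 : (p : ℤ) ∣ (Hh g i : ℤ) := by
        show (p : ℤ) ∣ ((2 * (cg t g * a₀ + 12 * G * l * tt g i) : ℕ) : ℤ)
        push_cast
        apply Dvd.dvd.mul_left
        apply dvd_add (Dvd.dvd.mul_left hpa _)
        exact Dvd.dvd.mul_right (Dvd.dvd.mul_right (Dvd.dvd.mul_left hpG _) _) _
      exact (dvd_add_left h3).1 hd
    obtain ⟨m, hm⟩ := cg_adm t p hp h2 (by
      intro ht h3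
      apply hpa
      rw [h3]
      exact_mod_cast ((hB₁t a₀ ha₀).1 ht))
    refine ⟨2 * m * a₀, fun g i hd => ?_⟩
    have hpz := Nat.prime_iff_prime_int.1 hp
    have h3 : (p : ℤ) ∣ 2 * a₀ * (m + cg t g) := by
      have e : (2 : ℤ) * a₀ * (m + cg t g) = (2 * m * a₀ + (Hh g i : ℤ)) - 24 * G * l * tt g i := by
        show (2 : ℤ) * a₀ * (m + cg t g) =
          (2 * m * a₀ + ((2 * (cg t g * a₀ + 12 * G * l * tt g i) : ℕ) : ℤ)) - 24 * G * l * tt g i
        push_cast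
        ring
      rw [e]
      apply dvd_sub hd
      exact Dvd.dvd.mul_right (Dvd.dvd.mul_right (Dvd.dvd.mul_left hpG _) _) _
    rcases hpz.dvd_or_dvd h3 with h4 | h4
    · rcases hpz.dvd_or_dvd h4 with h5 | h5
      · have : p ∣ 2 := by exact_mod_cast h5
        exact h2 ((Nat.prime_dvd_prime_iff_eq hp Nat.prime_two).1 this)
      · exact hpa h5
    · exact hm g h4
  refine ⟨Hh, hinj, hbd, hadm, ?_⟩
  intro g i g' i' hne hlt'
  have hlt : cg t g' < cg t g := by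
    rcases lt_or_gt_of_ne (cg_inj t g g' hne) with h1 | h1
    · exfalso
      obtain ⟨k, _, he⟩ := hdiff g' i' g i h1
      omega
    · exact h1
  obtain ⟨k, hk, he⟩ := hdiff g i g' i' hlt
  obtain ⟨j, hj⟩ : ∃ j, j = cg t g - cg t g' := ⟨_, rfl⟩
  rw [← hj] at he
  refine ⟨k, hB₁' hk, j, by omega, ?_, by omega⟩
  have h1 := cg_le t g
  have h2 := hB₁t k hk
  unfold R3
  by_cases h3 : 3 ∣ k
  · rw [if_pos h3]
    rw [if_pos (h2.2 h3)] at h1
    omega
  · rw [if_neg h3]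
    have h4 : (if t = true then 3 else 4) ≤ 4 := by split_ifs <;> omega
    omega

end Pool.Agent.Y827.SU
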