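import Mathlib
import Pool.Agent.TH882.D3

/-! Project SU: dense subsets of rough tuples have a positive proportion of sums, with many representations.
The two analytic inputs (`R_upper`, `avg`) and the method are those of `Pool.Agent.TH882.D5`. -/

set_option autoImplicit false

open Finset Filter Topology

namespace Pool.Agent.Y827.SU

open Pool.Agent.H361R2.PP
open Pool.Agent.W70.HR
open Pool.Agent.TH882.DD

/-- the representations of `N` as a sum of two elements of `A` -/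
noncomputable def PS (A : Finset ℕ) (N : ℕ) : Finset ℕ := A.filter (fun n => n ≤ N ∧ N - n ∈ A)

lemma sum_PS (X : ℕ) (A : Finset ℕ) (hA : A ⊆ Ico X (2 * X)) :
    (A.card : ℝ) ^ 2 ≤ ∑ N ∈ Ico (2 * X) (4 * X), ((PS A N).card : ℝ) := by
  classical
  have h1 : (A ×ˢ A).card = ∑ N ∈ Ico (2 * X) (4 * X),
      ((A ×ˢ A).filter (fun x => x.1 + x.2 = N)).card := by
    apply card_eq_sum_card_fiberwise
    intro x hx
    rw [mem_coe, mem_product] at hx
    have h2 := hA hx.1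
    have h3 := hA hx.2
    rw [mem_Ico] at h2 h3
    rw [mem_coe, mem_Ico]
    show 2 * X ≤ x.1 + x.2 ∧ x.1 + x.2 < 4 * X
    omega
  have h2 : ∀ N ∈ Ico (2 * X) (4 * X), ((A ×ˢ A).filter (fun x => x.1 + x.2 = N)).card ≤
      (PS A N).card := by
    intro N _
    apply card_le_card_of_injOn (fun x => x.1)
    · intro x hx
      rw [mem_coe, mem_filter, mem_product] at hx
      unfold PS
      rw [mem_coe, mem_filter]
      show x.1 ∈ A ∧ x.1 ≤ N ∧ N - x.1 ∈ A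
      refine ⟨hx.1.1, by omega, ?_⟩
      have : N - x.1 = x.2 := by omega
      rw [this]
      exact hx.1.2
    · intro x hx y hy he
      rw [mem_coe, mem_filter, mem_product] at hx hy
      simp only at he
      exact Prod.ext he (by omega)
  rw [card_product] at h1
  have h3 : A.card * A.card ≤ ∑ N ∈ Ico (2 * X) (4 * X), (PS A N).card := by
    rw [h1]
    exact sum_le_sum h2
  rw [sq]
  exact_mod_cast h3

/-- Paley-Zygmund -/
lemma pz (X : ℕ) (hX : 1 ≤ X) (A : Finset ℕ) (hA : A ⊆ Ico X (2 * X)) (E : ℝ) (hE : 0 ≤ E)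
    (h : ∑ N ∈ Ico (2 * X) (4 * X), ((PS A N).card : ℝ) ^ 2 ≤ E) :
    (A.card : ℝ) ^ 4 / 4 ≤ E * (((Ico (2 * X) (4 * X)).filter (fun N =>
      (A.card : ℝ) ^ 2 / (4 * X) ≤ ((PS A N).card : ℝ))).card : ℝ) := by
  classical
  have hX0 : (0 : ℝ) < X := by exact_mod_cast hX
  set a : ℝ := (A.card : ℝ) with ha
  set I := Ico (2 * X) (4 * X) with hI
  have hIc : (I.card : ℝ) = 2 * X := by
    rw [hI, Nat.card_Ico]
    have : 4 * X - 2 * X = 2 * X := by omega
    rw [this]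
    push_cast
    ring
  set G := I.filter (fun N => a ^ 2 / (4 * X) ≤ ((PS A N).card : ℝ)) with hG
  have h1 := sum_PS X A hA
  rw [← ha, ← hI, ← sum_filter_add_sum_filter_not I
    (fun N => a ^ 2 / (4 * X) ≤ ((PS A N).card : ℝ)), ← hG] at h1
  have h2 : ∑ N ∈ I.filter (fun N => ¬ a ^ 2 / (4 * X) ≤ ((PS A N).card : ℝ)), ((PS A N).card : ℝ) ≤
      a ^ 2 / 2 := by
    calc ∑ N ∈ I.filter (fun N => ¬ a ^ 2 / (4 * X) ≤ ((PS A N).card : ℝ)), ((PS A N).card : ℝ) ≤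
        ∑ _N ∈ I.filter (fun N => ¬ a ^ 2 / (4 * X) ≤ ((PS A N).card : ℝ)), a ^ 2 / (4 * X) := by
          apply sum_le_sum
          intro N hN
          exact (not_le.1 (mem_filter.1 hN).2).le
      _ ≤ ∑ _N ∈ I, a ^ 2 / (4 * X) := by
          apply sum_le_sum_of_subset_of_nonneg (filter_subset _ _)
          intro _ _ _
          positivity
      _ = a ^ 2 / 2 := by
          rw [sum_const, nsmul_eq_mul, hIc]
          field_simp
          ring
  have h3 : a ^ 2 / 2 ≤ ∑ N ∈ G, ((PS A N).card : ℝ) := by linarith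
  have h4 := sq_sum_le_card_mul_sum_sq (s := G) (f := fun N => ((PS A N).card : ℝ))
  have h5 : ∑ N ∈ G, ((PS A N).card : ℝ) ^ 2 ≤ E := by
    refine le_trans ?_ h
    apply sum_le_sum_of_subset_of_nonneg (filter_subset _ _)
    intro _ _ _
    positivity
  calc a ^ 4 / 4 = (a ^ 2 / 2) ^ 2 := by ring
    _ ≤ (∑ N ∈ G, ((PS A N).card : ℝ)) ^ 2 := pow_le_pow_left₀ (by positivity) h3 2
    _ ≤ (G.card : ℝ) * ∑ N ∈ G, ((PS A N).card : ℝ) ^ 2 := h4
    _ ≤ (G.card : ℝ) * E := mul_le_mul_of_nonneg_left h5 (by positivity)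
    _ = _ := mul_comm _ _

/-- dense subsets of rough tuples: a positive proportion of sums with many representations -/
theorem sums (L A0 : ℕ) (δ : ℝ) (hδ : 0 < δ) (hδ1 : δ ≤ 1) (c : ℝ) (hc : 0 < c) : ∃ c' : ℝ, 0 < c' ∧
    ∃ X₀ : ℕ, ∀ X : ℕ, X₀ ≤ X → ∀ U : Finset ℕ, U.card = L → U.Nonempty → (∀ u ∈ U, u ≤ A0) →
    ∀ A ⊆ Ico X (2 * X), (∀ n ∈ A, Ro δ X U n) → c * (X / (Real.log X) ^ L) ≤ (A.card : ℝ) →
    c' * X ≤ (((Ico (2 * X) (4 * X)).filter (fun N =>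
      (X : ℝ) / Real.log X ^ (2 * L + 1) ≤ ((PS A N).card : ℝ))).card : ℝ) := by
  classical
  obtain ⟨w0, δ', hδ', hδ1', C, hC, X2, h2⟩ := R_upper L A0 δ hδ hδ1
  obtain ⟨C3, hC3, X3, h3⟩ := avg L A0
  obtain ⟨C4, hC4, hM⟩ := Pool.Agent.W70.HR.mer
  obtain ⟨X5, h5⟩ := hM δ hδ hδ1
  have hlogt : Tendsto (fun X : ℕ => Real.log (X : ℝ)) atTop atTop :=
    Real.tendsto_log_atTop.comp tendsto_natCast_atTop_atTop
  obtain ⟨X4, h4⟩ := eventually_atTop.1 (hlogt.eventually_ge_atTop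
    (max 1 (4 / c ^ 2)))
  have hC40 : 0 < C4 := by linarith
  -- F log X is at most C5
  obtain ⟨C5, hC5⟩ : ∃ C5, C5 = C4 / δ := ⟨_, rfl⟩
  have hC50 : 0 < C5 := by rw [hC5]; positivity
  refine ⟨c ^ 4 / (4 * (C ^ 2 * C3 * C5 ^ (4 * L))), by positivity,
    max (max X5 X2) (max X3 (max X4 1)), ?_⟩
  intro X hX U hUL hUne hUA A hAI hro hAc
  have hX5 : X5 ≤ X := by omega
  have hX2 : X2 ≤ X := by omega
  have hX3 : X3 ≤ X := by omega
  have hX4 : X4 ≤ X := by omega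
  have hX1' : 1 ≤ X := by omega
  have hX0 : (0 : ℝ) < X := by exact_mod_cast hX1'
  have hl := h4 X hX4
  have hl1 : 1 ≤ Real.log X := (le_max_left _ _).trans hl
  have hl2 : 4 / c ^ 2 ≤ Real.log X := (le_max_right _ _).trans hl
  have hl0 : 0 < Real.log X := by linarith
  obtain ⟨hF0, hFl, hR⟩ := h2 X hX2
  have hFu : FF δ X ≤ C5 / Real.log X := by
    have h6 := (h5 X hX5).2.1
    have h7 : FF δ X * (δ * Real.log X) ≤ C4 := h6
    rw [hC5, div_div, le_div_iff₀ (by positivity)]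
    exact h7
  set F := FF δ X with hF
  set P := P1 w0 (JJ δ' X) with hP
  have hPp : ∀ p ∈ P, p.Prime := fun p hp => (mem_P1.1 hp).2.1
  have hPS : ∀ N ∈ Ico (2 * X) (4 * X), ((PS A N).card : ℝ) ≤ C * (X * F ^ (2 * L) * hh P U N) := by
    intro N hN
    rw [mem_Ico] at hN
    apply hR U hUL hUA N hN.1 (PS A N) ((filter_subset _ _).trans hAI)
    intro n hn
    unfold PS at hn
    rw [mem_filter] at hn
    exact ⟨hro _ hn.1, hro _ hn.2.2⟩
  have hE : ∑ N ∈ Ico (2 * X) (4 * X), ((PS A N).card : ℝ) ^ 2 ≤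
      C ^ 2 * C3 * (X ^ 3 * F ^ (4 * L)) := by
    calc ∑ N ∈ Ico (2 * X) (4 * X), ((PS A N).card : ℝ) ^ 2 ≤
        ∑ N ∈ Ico (2 * X) (4 * X), (C * (X * F ^ (2 * L))) ^ 2 * hh P U N ^ 2 := by
          apply sum_le_sum
          intro N hN
          calc ((PS A N).card : ℝ) ^ 2 ≤ (C * (X * F ^ (2 * L) * hh P U N)) ^ 2 :=
                pow_le_pow_left₀ (by positivity) (hPS N hN) 2
            _ = _ := by ring
      _ = (C * (X * F ^ (2 * L))) ^ 2 * ∑ N ∈ Ico (2 * X) (4 * X), hh P U N ^ 2 := by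
          rw [mul_sum]
      _ ≤ (C * (X * F ^ (2 * L))) ^ 2 * (C3 * X) :=
          mul_le_mul_of_nonneg_left (h3 X hX3 U hUL hUne hUA P hPp) (by positivity)
      _ = C ^ 2 * C3 * (X ^ 3 * (F ^ (2 * L)) ^ 2) := by ring
      _ = _ := by
          rw [← pow_mul]
          congr 3
          ring
  have hE2 : C ^ 2 * C3 * (X ^ 3 * F ^ (4 * L)) ≤
      C ^ 2 * C3 * (X ^ 3 * (C5 / Real.log X) ^ (4 * L)) := by
    apply mul_le_mul_of_nonneg_left _ (by positivity)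
    apply mul_le_mul_of_nonneg_left _ (by positivity)
    exact pow_le_pow_left₀ hF0.le hFu _
  have hpz := pz X hX1' A hAI _ (by positivity) (hE.trans hE2)
  set a : ℝ := (A.card : ℝ) with ha
  set l : ℝ := Real.log X with hldef
  have haL : (c * (X / l ^ L)) ^ 4 ≤ a ^ 4 := pow_le_pow_left₀ (by positivity) hAc 4
  have haL2 : (c * (X / l ^ L)) ^ 2 ≤ a ^ 2 := pow_le_pow_left₀ (by positivity) hAc 2
  set G := (Ico (2 * X) (4 * X)).filter (fun N => a ^ 2 / (4 * X) ≤ ((PS A N).card : ℝ)) with hG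
  have hGc : c ^ 4 / (4 * (C ^ 2 * C3 * C5 ^ (4 * L))) * X ≤ (G.card : ℝ) := by
    have h5 : (c * (X / l ^ L)) ^ 4 / 4 ≤ C ^ 2 * C3 * (X ^ 3 * (C5 / l) ^ (4 * L)) * (G.card : ℝ) :=
      (div_le_div_of_nonneg_right haL (by norm_num)).trans hpz
    have h6 : (c * (X / l ^ L)) ^ 4 / 4 =
        (c ^ 4 / (4 * (C ^ 2 * C3 * C5 ^ (4 * L))) * X) *
          (C ^ 2 * C3 * (X ^ 3 * (C5 / l) ^ (4 * L))) := by
      rw [div_pow C5 l, mul_pow, div_pow (X : ℝ), ← pow_mul, mul_comm L 4]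
      field_simp
    rw [h6, mul_comm (C ^ 2 * C3 * (X ^ 3 * (C5 / l) ^ (4 * L))) (G.card : ℝ)] at h5
    exact le_of_mul_le_mul_right h5 (by positivity)
  refine hGc.trans ?_
  apply Nat.cast_le.2
  apply card_le_card
  intro N hN
  rw [hG, mem_filter] at hN
  rw [mem_filter]
  refine ⟨hN.1, le_trans ?_ hN.2⟩
  have h5 : (c * (X / l ^ L)) ^ 2 / (4 * X) ≤ a ^ 2 / (4 * X) :=
    div_le_div_of_nonneg_right haL2 (by positivity)
  refine le_trans ?_ h5
  have h7 : (c * (X / l ^ L)) ^ 2 / (4 * X) = X * (c ^ 2 / 4) / l ^ (2 * L) := by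
    rw [mul_pow, div_pow (X : ℝ), ← pow_mul, mul_comm L 2]
    field_simp
  rw [h7, pow_succ, div_mul_eq_div_div, div_right_comm]
  apply div_le_div_of_nonneg_right _ (by positivity)
  rw [div_le_iff₀ hl0]
  have h9 : 1 ≤ c ^ 2 / 4 * l := by
    rw [div_le_iff₀ (by positivity)] at hl2
    linarith
  nlinarith

end Pool.Agent.Y827.SU
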