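import Mathlib
import Pool.Agent.Y827.RO.LamE
import Pool.Agent.Y827.RO.NinE
import Pool.Agent.Y827.SU.Sum
import Pool.Agent.Y827.SU.Up

/-! Project SU: exact blocks of primes with the constant `18 / 5` and a positive proportion of sums. -/

set_option autoImplicit false

open Finset Filter Topology

namespace Pool.Agent.Y827.SU

open Pool.Agent.H361R2.PP (JJ)
open Pool.Agent.TH882.DD (Ro)
open Pool.Agent.H947R3.GM Pool.Agent.Y827.GS Pool.Agent.Y827.RO

open Classical in
/-- the `n < m` for which the primes among `n + t` and among `m - n + t`, `min F ≤ t ≤ b`, are exactly those with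
`t ∈ F` -/
noncomputable def repsE (F : Finset ℕ) (b m : ℕ) : Finset ℕ :=
  (range m).filter (fun n => ∀ t ≤ b, (∃ v ∈ F, v ≤ t) →
    (((n + t).Prime ↔ t ∈ F) ∧ ((m - n + t).Prime ↔ t ∈ F)))

open Classical in
/-- the number of the `m < x` with at least `m / (log m) ^ E` representations -/
noncomputable def richE (E : ℕ) (F : Finset ℕ) (b x : ℕ) : ℕ :=
  ((range x).filter (fun m : ℕ => (m : ℝ) / (Real.log m) ^ E ≤ ((repsE F b m).card : ℝ))).card

theorem popX (T M : ℕ) (hT : 1 ≤ T) (hTM : (18 / 5 : ℝ) * M < T) : ∃ K : ℕ, 1 ≤ K ∧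
    ∀ B0 : ℕ, ∃ c : ℝ, 0 < c ∧ ∀ᶠ x : ℕ in atTop, ∀ H : Fin T → Fin K → ℕ,
    Function.Injective (fun z : Fin T × Fin K => H z.1 z.2) → (∀ g i, H g i ≤ B0) →
    (∀ p : ℕ, p.Prime → p ≤ T * K → ∃ r : ℤ, ∀ g i, ¬ (p : ℤ) ∣ r + H g i) →
    ∃ E : Finset (Fin T × Fin K), M + 1 ≤ (E.image Prod.fst).card ∧
    c * x ≤ (richE (2 * (T * K + 1) + 2) (E.image (fun z => H z.1 z.2)) B0 x : ℝ) := by
  classical
  obtain ⟨K, hK, δ, hδ, h⟩ := lamE0 T M hT hTM
  obtain ⟨s₀, c, hc, h⟩ := h 1
  refine ⟨K, hK, fun B0 => ?_⟩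
  obtain ⟨L, hL⟩ : ∃ L, L = T * K + 1 := ⟨_, rfl⟩
  rw [← hL] at h ⊢
  obtain ⟨δ₁, hδ₁⟩ : ∃ δ₁, δ₁ = min δ 1 := ⟨_, rfl⟩
  have hδ₁0 : 0 < δ₁ := by rw [hδ₁]; exact lt_min hδ one_pos
  have hδ₁1 : δ₁ ≤ 1 := by rw [hδ₁]; exact min_le_right _ _
  have hδ₁δ : δ₁ ≤ δ := by rw [hδ₁]; exact min_le_left _ _
  obtain ⟨c', hc', X1, hsum⟩ := sums L (s₀ + B0) δ₁ hδ₁0 hδ₁1 (c / (14 * 2 ^ L)) (by positivity)
  obtain ⟨C8, hC8, X8, hup⟩ := S_upper (L + 1) (s₀ + B0) δ₁ hδ₁0 hδ₁1
  have hlogt : Tendsto (fun X : ℕ => Real.log (X : ℝ)) atTop atTop :=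
    Real.tendsto_log_atTop.comp tendsto_natCast_atTop_atTop
  obtain ⟨X9, hX9⟩ := eventually_atTop.1 (hlogt.eventually_ge_atTop
    (((s₀ + B0 + 1 : ℕ) : ℝ) * C8 * (14 * 2 ^ L) / c))
  obtain ⟨X2, hw⟩ := Pool.Agent.H325R2.wtx.2 δ₁ hδ₁0 hδ₁1
  have key : ∀ᶠ N : ℕ in atTop, ∀ H : Fin T → Fin K → ℕ,
      Function.Injective (fun z : Fin T × Fin K => H z.1 z.2) → (∀ g i, H g i ≤ B0) →
      (∀ p : ℕ, p.Prime → p ≤ T * K → ∃ r : ℤ, ∀ g i, ¬ (p : ℤ) ∣ r + H g i) →
      ∃ s ≤ s₀, ∃ E : Finset (Fin T × Fin K), M + 1 ≤ (E.image Prod.fst).card ∧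
      ∃ X, N / 64 ≤ X ∧ X ≤ N ∧ c' * X ≤ (((Ico (2 * X) (4 * X)).filter (fun N =>
        (X : ℝ) / Real.log X ^ (2 * L + 1) ≤ ((PS ((Ico X (2 * X)).filter
          (fun n => ∀ t ≤ B0, (∃ v ∈ E.image (fun z => H z.1 z.2), v ≤ t) →
            ((n + s + t).Prime ↔ t ∈ E.image (fun z => H z.1 z.2)))) N).card : ℝ))).card : ℝ) := by
    filter_upwards [h, eventually_ge_atTop (64 * (X1 + X2 + X8 + X9 + 128 + s₀ + B0) + 64)] with N hN hNl H hinj hHB0 hadm
    have hHB : ∀ x : Fin T × Fin K, H x.1 x.2 ≤ B0 := fun x => hHB0 _ _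
    obtain ⟨y, hy⟩ : ∃ y, y = N / 64 := ⟨_, rfl⟩
    have hyN : 64 * y ≤ N := by omega
    have hyN2 : N < 64 * y + 64 := by omega
    have hyl : X1 + X2 + X8 + X9 + 128 + s₀ + B0 ≤ y := by omega
    have hNr : (0 : ℝ) ≤ N := Nat.cast_nonneg N
    obtain ⟨s, E, hs, hne, -, hE, hcard⟩ := hN (fun g i => ((1 : ℤ), (H g i : ℤ)))
      (by
        intro x z hxz
        apply hinj
        simp only [Prod.mk.injEq, Nat.cast_inj, true_and] at hxz
        exact hxz)
      (by
        intro g i
        have hb := hHB (g, i)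
        simp only at hb
        refine ⟨one_ne_zero, by simp, ?_, isCoprime_one_left, ?_⟩
        · rw [abs_of_nonneg (Int.natCast_nonneg _)]
          have : H g i ≤ N := by omega
          exact_mod_cast this
        · intro t ht _
          have hh0 : (0 : ℝ) ≤ ((H g i : ℕ) : ℝ) := Nat.cast_nonneg _
          show (N : ℝ) / 24 ≤ ((1 : ℤ) : ℝ) * t + (((H g i : ℕ) : ℤ) : ℝ)
          push_cast
          linarith)
      (by
        intro p hp hpT
        obtain ⟨r, hr⟩ := hadm p hp hpT
        refine ⟨r, fun g i => ?_⟩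
        rw [one_mul]
        exact hr g i)
    refine ⟨s, hs, E, hE, ?_⟩
    set R := Re (fun g i => ((1 : ℤ), (H g i : ℤ))) δ s E N with hR
    have hmem : ∀ n ∈ R, n ≤ N ∧ N ≤ 16 * n ∧ s ≤ n ∧
        (∀ p : ℕ, p.Prime → Real.log p ≤ δ * Real.log N → ¬ p ∣ n - s) ∧
        (∀ g i, ∀ p : ℕ, p.Prime → Real.log p ≤ δ * Real.log N → ¬ p ∣ n + H g i) ∧
        (∀ x : Fin T × Fin K, ((n + H x.1 x.2).Prime ↔ x ∈ E)) := by
      intro n hn
      rw [hR] at hn
      unfold Re at hn
      rw [mem_filter, mem_Icc] at hn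
      obtain ⟨⟨h1, h2⟩, h3, h4, h5, h6⟩ := hn
      have h16 : N ≤ 16 * n := by
        rw [div_le_iff₀ (by norm_num)] at h3
        have : (N : ℝ) ≤ ((16 * n : ℕ) : ℝ) := by push_cast; linarith
        exact_mod_cast this
      have hsn : s ≤ n := by omega
      refine ⟨h2, h16, hsn, ?_, ?_, ?_⟩
      · intro p hp hl hd
        apply h4 p hp hl
        have : ((p : ℕ) : ℤ) ∣ ((n - s : ℕ) : ℤ) := by exact_mod_cast hd
        rwa [Nat.cast_sub hsn] at this
      · intro g i p hp hl hd
        apply h5 g i p hp hl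
        show (p : ℤ) ∣ 1 * (n : ℤ) + (H g i : ℤ)
        rw [one_mul]
        exact_mod_cast hd
      · intro x
        have h7 := h6 x.1 x.2
        have e : ((1 : ℤ) * (n : ℤ) + (H x.1 x.2 : ℤ)).toNat = n + H x.1 x.2 := by
          rw [one_mul]
          exact_mod_cast Int.toNat_natCast (n + H x.1 x.2)
        have h8 : ((1 : ℤ) * (n : ℤ) + (H x.1 x.2 : ℤ)).toNat.Prime ↔ x ∈ E := h7
        rwa [e] at h8
    set A := R.image (fun n => n - s) with hA
    have hAc : A.card = R.card := by
      rw [hA]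
      apply card_image_of_injOn
      intro a ha b hb hab
      have h1 := (hmem a ha).2.2.1
      have h2 := (hmem b hb).2.2.1
      simp only at hab
      omega
    have hAm : ∀ m ∈ A, m + s ∈ R ∧ y ≤ m ∧ m < 128 * y := by
      intro m hm
      rw [hA, mem_image] at hm
      obtain ⟨n, hn, rfl⟩ := hm
      have h1 := hmem n hn
      have e : n - s + s = n := Nat.sub_add_cancel h1.2.2.1
      rw [e]
      exact ⟨hn, by omega, by omega⟩
    have hy0 : 0 < y := by omega
    have hmaps : ∀ m ∈ A, Nat.log 2 (m / y) ∈ range 7 := by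
      intro m hm
      have h1 := hAm m hm
      rw [mem_range]
      apply Nat.log_lt_of_lt_pow
      · have : 1 ≤ m / y := by rw [Nat.le_div_iff_mul_le hy0]; omega
        omega
      · rw [Nat.div_lt_iff_lt_mul hy0]
        have := h1.2.2
        norm_num
        omega
    have hfib := card_eq_sum_card_fiberwise (f := fun m => Nat.log 2 (m / y)) (s := A) (t := range 7)
      (fun m hm => mem_coe.2 (hmaps m (mem_coe.1 hm)))
    obtain ⟨j, hj, hjc⟩ : ∃ j ∈ range 7, A.card ≤ 7 * (A.filter (fun m => Nat.log 2 (m / y) = j)).card := by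
      by_contra hcon
      push Not at hcon
      have h1 : ∑ j ∈ range 7, 7 * (A.filter (fun m => Nat.log 2 (m / y) = j)).card <
          ∑ _j ∈ range 7, A.card := sum_lt_sum_of_nonempty (by simp) hcon
      rw [← mul_sum, ← hfib, sum_const, card_range, smul_eq_mul] at h1
      exact lt_irrefl _ h1
    set Aj := A.filter (fun m => Nat.log 2 (m / y) = j) with hAj
    obtain ⟨X, hX⟩ : ∃ X, X = 2 ^ j * y := ⟨_, rfl⟩
    have hj6 : j ≤ 6 := by rw [mem_range] at hj; omega
    have h2j : 1 ≤ 2 ^ j := Nat.one_le_two_pow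
    have h2j6 : 2 ^ j ≤ 64 := by
      calc 2 ^ j ≤ 2 ^ 6 := Nat.pow_le_pow_right (by norm_num) hj6
        _ = 64 := by norm_num
    have hyX : y ≤ X := by rw [hX]; exact Nat.le_mul_of_pos_left _ h2j
    have hXN : X ≤ N := by
      rw [hX]
      exact (Nat.mul_le_mul_right y h2j6).trans hyN
    have hAjI : Aj ⊆ Ico X (2 * X) := by
      intro m hm
      rw [hAj, mem_filter] at hm
      obtain ⟨hm1, hm2⟩ := hm
      have h1 := hAm m hm1
      have h3 : m / y ≠ 0 := by
        have : 1 ≤ m / y := by rw [Nat.le_div_iff_mul_le hy0]; omega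
        omega
      have h4 := Nat.pow_log_le_self 2 h3
      have h5 := Nat.lt_pow_succ_log_self (b := 2) (by norm_num) (m / y)
      rw [hm2] at h4 h5
      rw [Nat.le_div_iff_mul_le hy0] at h4
      rw [Nat.div_lt_iff_lt_mul hy0] at h5
      rw [mem_Ico, hX]
      refine ⟨h4, ?_⟩
      rw [pow_succ] at h5
      calc m < 2 ^ j * 2 * y := h5
        _ = 2 * (2 ^ j * y) := by ring
    refine ⟨X, by omega, hXN, ?_⟩
    -- the set of shifts
    set U : Finset ℕ := insert 0 ((univ : Finset (Fin T × Fin K)).image (fun x => s + H x.1 x.2)) with hU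
    have hUc : U.card = L := by
      rw [hU, card_insert_of_notMem, card_image_of_injective, card_univ, Fintype.card_prod,
        Fintype.card_fin, Fintype.card_fin, hL]
      · intro x z hxz
        apply hinj
        simp only at hxz ⊢
        omega
      · intro h0
        rw [mem_image] at h0
        obtain ⟨x, -, hx⟩ := h0
        have h1 := hne x.1 x.2
        apply h1
        show (H x.1 x.2 : ℤ) + 1 * (s : ℤ) = 0
        rw [one_mul]
        have : H x.1 x.2 + s = 0 := by omega
        exact_mod_cast this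
    have hUA : ∀ u ∈ U, u ≤ s₀ + B0 := by
      intro u hu
      rw [hU, mem_insert, mem_image] at hu
      rcases hu with rfl | ⟨x, -, rfl⟩
      · exact Nat.zero_le _
      · exact Nat.add_le_add hs (hHB x)
    have hX0 : (0 : ℝ) < X := by
      have : 0 < X := by omega
      exact_mod_cast this
    have hXNr : (X : ℝ) ≤ N := by exact_mod_cast hXN
    have hro : ∀ m ∈ Aj, Ro δ₁ X U m := by
      intro m hm u hu p hp hplt
      have hm1 := hAm m (mem_filter.1 hm).1
      have hR1 := hmem _ hm1.1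
      have hlog : Real.log p ≤ δ * Real.log N := by
        have h1 := (hw X (by omega)).1
        have h2 : (p : ℝ) ≤ (X : ℝ) ^ δ₁ := by
          refine le_trans ?_ h1
          have : (p : ℝ) ≤ ((2 ^ 2 ^ JJ δ₁ X : ℕ) : ℝ) := by exact_mod_cast hplt.le
          push_cast at this
          exact this
        have hp0 : (0 : ℝ) < p := by exact_mod_cast hp.pos
        have h3 := Real.log_le_log hp0 h2
        rw [Real.log_rpow hX0] at h3
        have h4 : Real.log X ≤ Real.log N := Real.log_le_log hX0 hXNr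
        have h5 : 0 ≤ Real.log N := Real.log_nonneg (by
          have : 1 ≤ N := by omega
          exact_mod_cast this)
        calc Real.log p ≤ δ₁ * Real.log X := h3
          _ ≤ δ₁ * Real.log N := mul_le_mul_of_nonneg_left h4 hδ₁0.le
          _ ≤ δ * Real.log N := mul_le_mul_of_nonneg_right hδ₁δ h5
      rw [hU, mem_insert, mem_image] at hu
      rcases hu with rfl | ⟨x, -, rfl⟩
      · have h1 := hR1.2.2.2.1 p hp hlog
        rw [Nat.add_sub_cancel] at h1
        rwa [add_zero]
      · have h1 := hR1.2.2.2.2.1 x.1 x.2 p hp hlog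
        rwa [← add_assoc]
    -- the size
    have hcardj : c / (7 * 2 ^ L) * (X / (Real.log X) ^ L) ≤ (Aj.card : ℝ) := by
      have hX128 : 128 ≤ X := by omega
      have hlX : 0 < Real.log X := Real.log_pos (by
        have : (128 : ℝ) ≤ X := by exact_mod_cast hX128
        linarith)
      have hNX2 : (N : ℝ) ≤ (X : ℝ) ^ 2 := by
        have h1 : N ≤ X * X := by
          have h2 : N ≤ 128 * y := by omega
          exact h2.trans (Nat.mul_le_mul hX128 hyX)
        rw [sq]
        exact_mod_cast h1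
      have hlN : Real.log N ≤ 2 * Real.log X := by
        have h1 := Real.log_le_log (by linarith : (0 : ℝ) < N) hNX2
        rw [Real.log_pow] at h1
        exact_mod_cast h1
      have hlN0 : 0 < Real.log N := lt_of_lt_of_le hlX (Real.log_le_log hX0 hXNr)
      have h1 : (X : ℝ) / (Real.log X) ^ L ≤ 2 ^ L * (N / (Real.log N) ^ L) := by
        rw [← mul_div_assoc, div_le_div_iff₀ (by positivity) (by positivity)]
        have h2 : (Real.log N) ^ L ≤ (2 * Real.log X) ^ L := pow_le_pow_left₀ hlN0.le hlN L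
        rw [mul_pow] at h2
        calc (X : ℝ) * Real.log N ^ L ≤ N * (2 ^ L * Real.log X ^ L) :=
              mul_le_mul hXNr h2 (by positivity) hNr
          _ = _ := by ring
      have h3 : (A.card : ℝ) ≤ 7 * (Aj.card : ℝ) := by exact_mod_cast hjc
      rw [hAc] at h3
      calc c / (7 * 2 ^ L) * (X / (Real.log X) ^ L) ≤
          c / (7 * 2 ^ L) * (2 ^ L * (N / (Real.log N) ^ L)) :=
            mul_le_mul_of_nonneg_left h1 (by positivity)
        _ = c * (N / (Real.log N) ^ L) / 7 := by field_simp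
        _ ≤ (R.card : ℝ) / 7 := div_le_div_of_nonneg_right hcard (by norm_num)
        _ ≤ Aj.card := by linarith
    -- no other primes in the block
    have hX128 : 128 ≤ X := by omega
    have hlX : 0 < Real.log X := Real.log_pos (by
      have : (128 : ℝ) ≤ X := by exact_mod_cast hX128
      linarith)
    set Ao := Aj.filter (fun m => ∀ t ∈ range (s₀ + B0 + 1), t ∉ U → ¬ (m + t).Prime) with hAo
    have hone : ∀ t ∈ (range (s₀ + B0 + 1)).filter (fun t => t ∉ U),
        ((Aj.filter (fun m => (m + t).Prime)).card : ℝ) ≤ C8 * (X / (Real.log X) ^ (L + 1)) := by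
      intro t ht
      rw [mem_filter, mem_range] at ht
      apply hup X (by omega) (insert t U)
      · rw [card_insert_of_notMem ht.2, hUc]
      · intro u hu
        rcases mem_insert.1 hu with rfl | hu
        · omega
        · exact hUA u hu
      · exact (filter_subset _ _).trans hAjI
      · intro m hm u hu p hp hplt
        rw [mem_filter] at hm
        rcases mem_insert.1 hu with rfl | hu
        · intro hd
          have h1 := (Nat.prime_dvd_prime_iff_eq hp hm.2).1 hd
          have h2 := mem_Ico.1 (hAjI hm.1)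
          have h3 := (hw X (by omega)).1
          have h4 : (X : ℝ) ^ δ₁ ≤ X := by
            calc (X : ℝ) ^ δ₁ ≤ (X : ℝ) ^ (1 : ℝ) := Real.rpow_le_rpow_of_exponent_le (by
                  have : (128 : ℝ) ≤ X := by exact_mod_cast hX128
                  linarith) hδ₁1
              _ = X := Real.rpow_one _
          have h5 : ((2 ^ 2 ^ JJ δ₁ X : ℕ) : ℝ) ≤ X := by
            push_cast
            exact h3.trans h4
          have h6 : 2 ^ 2 ^ JJ δ₁ X ≤ X := by exact_mod_cast h5
          omega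
        · exact hro m hm.1 u hu p hp hplt
    have hAoc : c / (14 * 2 ^ L) * (X / (Real.log X) ^ L) ≤ (Ao.card : ℝ) := by
      have h1 : Aj.card ≤ Ao.card + ∑ t ∈ (range (s₀ + B0 + 1)).filter (fun t => t ∉ U),
          (Aj.filter (fun m => (m + t).Prime)).card := by
        have hsub : Aj ⊆ Ao ∪ ((range (s₀ + B0 + 1)).filter (fun t => t ∉ U)).biUnion
            (fun t => Aj.filter (fun m => (m + t).Prime)) := by
          intro m hm
          rw [mem_union]
          by_cases h2 : ∀ t ∈ range (s₀ + B0 + 1), t ∉ U → ¬ (m + t).Prime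
          · exact Or.inl (mem_filter.2 ⟨hm, h2⟩)
          · push Not at h2
            obtain ⟨t, ht1, ht2, ht3⟩ := h2
            exact Or.inr (mem_biUnion.2 ⟨t, mem_filter.2 ⟨ht1, ht2⟩, mem_filter.2 ⟨hm, ht3⟩⟩)
        exact (card_le_card hsub).trans ((card_union_le _ _).trans (Nat.add_le_add_left card_biUnion_le _))
      have h1r : (Aj.card : ℝ) ≤ (Ao.card : ℝ) + ∑ t ∈ (range (s₀ + B0 + 1)).filter (fun t => t ∉ U),
          ((Aj.filter (fun m => (m + t).Prime)).card : ℝ) := by exact_mod_cast h1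
      have h2 : ∑ t ∈ (range (s₀ + B0 + 1)).filter (fun t => t ∉ U),
          ((Aj.filter (fun m => (m + t).Prime)).card : ℝ) ≤
          ((s₀ + B0 + 1 : ℕ) : ℝ) * (C8 * (X / (Real.log X) ^ (L + 1))) := by
        refine (sum_le_card_nsmul _ _ _ hone).trans ?_
        rw [nsmul_eq_mul]
        apply mul_le_mul_of_nonneg_right _ (by positivity)
        have := card_filter_le (range (s₀ + B0 + 1)) (fun t => t ∉ U)
        rw [card_range] at this
        exact_mod_cast this
      have h3 := hX9 X (by omega)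
      rw [div_le_iff₀ hc] at h3
      have h4 : ((s₀ + B0 + 1 : ℕ) : ℝ) * (C8 * (X / (Real.log X) ^ (L + 1))) ≤
          c / (14 * 2 ^ L) * (X / (Real.log X) ^ L) := by
        rw [pow_succ, ← div_div]
        have e1 : ((s₀ + B0 + 1 : ℕ) : ℝ) * (C8 * (X / (Real.log X) ^ L / Real.log X)) =
            (((s₀ + B0 + 1 : ℕ) : ℝ) * C8 * (14 * 2 ^ L)) * (1 / (14 * 2 ^ L) / Real.log X) *
              (X / (Real.log X) ^ L) := by
          field_simp
        rw [e1]
        apply mul_le_mul_of_nonneg_right _ (by positivity)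
        calc ((s₀ + B0 + 1 : ℕ) : ℝ) * C8 * (14 * 2 ^ L) * (1 / (14 * 2 ^ L) / Real.log X) ≤
            (Real.log X * c) * (1 / (14 * 2 ^ L) / Real.log X) :=
              mul_le_mul_of_nonneg_right h3 (by positivity)
          _ = c / (14 * 2 ^ L) := by field_simp
      have h5 : c / (7 * 2 ^ L) * (X / (Real.log X) ^ L) =
          c / (14 * 2 ^ L) * (X / (Real.log X) ^ L) + c / (14 * 2 ^ L) * (X / (Real.log X) ^ L) := by
        field_simp
        ring
      linarith
    have hAosub : Ao ⊆ Aj := filter_subset _ _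
    have hfin := hsum X (by omega) U hUc (insert_nonempty _ _) hUA Ao (hAosub.trans hAjI)
      (fun m hm => hro m (hAosub hm)) hAoc
    refine hfin.trans ?_
    rw [Nat.cast_le]
    apply card_le_card
    intro m hm
    rw [mem_filter] at hm ⊢
    refine ⟨hm.1, hm.2.trans ?_⟩
    rw [Nat.cast_le]
    apply card_le_card
    have hsub : Ao ⊆ (Ico X (2 * X)).filter (fun n => ∀ t ≤ B0,
        (∃ v ∈ E.image (fun z => H z.1 z.2), v ≤ t) →
            ((n + s + t).Prime ↔ t ∈ E.image (fun z => H z.1 z.2))) := by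
      intro n hn
      obtain ⟨hnj, hno⟩ := mem_filter.1 hn
      rw [mem_filter]
      refine ⟨hAjI hnj, fun t ht hex => ?_⟩
      have hR1 := (hmem _ (hAm n (mem_filter.1 hnj).1).1).2.2.2.2.2
      by_cases htU : s + t ∈ U
      · rw [hU, mem_insert, mem_image] at htU
        rcases htU with h0 | ⟨z, -, hz⟩
        · exfalso
          obtain ⟨v, hv, hvt⟩ := hex
          obtain ⟨z, hz, rfl⟩ := mem_image.1 hv
          have h1 := hne z.1 z.2
          apply h1
          show (H z.1 z.2 : ℤ) + 1 * (s : ℤ) = 0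
          rw [one_mul]
          have : H z.1 z.2 + s = 0 := by omega
          exact_mod_cast this
        · have hzt : H z.1 z.2 = t := by omega
          rw [← hzt, hR1 z]
          constructor
          · intro h1
            exact mem_image.2 ⟨z, h1, rfl⟩
          · intro h1
            obtain ⟨z', hz', he⟩ := mem_image.1 h1
            have : z' = z := hinj he
            rwa [← this]
      · have h1 := hno (s + t) (mem_range.2 (by omega)) htU
        rw [← add_assoc] at h1
        constructor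
        · intro h2
          exact absurd h2 h1
        · intro h2
          exfalso
          obtain ⟨z, -, he⟩ := mem_image.1 h2
          apply htU
          rw [hU, mem_insert, mem_image]
          have he' : H z.1 z.2 = t := he
          exact Or.inr ⟨z, mem_univ _, by rw [he']⟩
    intro n hn
    unfold PS at hn ⊢
    rw [mem_filter] at hn ⊢
    exact ⟨hsub hn.1, hn.2.1, hsub hn.2.2⟩
  obtain ⟨N0, hN0⟩ := eventually_atTop.1 key
  obtain ⟨X5, hX5⟩ := eventually_atTop.1 (hlogt.eventually_ge_atTop (5 : ℝ))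
  refine ⟨c' / 1000, by positivity, ?_⟩
  filter_upwards [eventually_ge_atTop (5 * N0 + 640 * (X5 + 2 * s₀ + 2))] with x hx H hinj hHB0 hadm
  obtain ⟨N, hN⟩ : ∃ N, N = x / 5 := ⟨_, rfl⟩
  obtain ⟨s, hs, E, hE, X, hX1, hX2, hX⟩ := hN0 N (by omega) H hinj hHB0 hadm
  refine ⟨E, hE, ?_⟩
  have hXl : X5 + 2 * s₀ + 1 ≤ X := by omega
  have hX0 : (0 : ℝ) < X := by
    have : 0 < X := by omega
    exact_mod_cast this
  have hl := hX5 X (by omega)
  have hxX : x ≤ 1000 * X := by omega
  have hxXr : (x : ℝ) ≤ 1000 * X := by exact_mod_cast hxX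
  refine le_trans (by nlinarith : c' / 1000 * (x : ℝ) ≤ c' * X) (hX.trans ?_)
  unfold richE
  apply Nat.cast_le.2
  apply card_le_card_of_injOn (fun N => N + 2 * s)
  · intro N' hN'
    rw [mem_coe, mem_filter, mem_Ico] at hN'
    obtain ⟨⟨hN1, hN2⟩, hN3⟩ := hN'
    rw [mem_coe, mem_filter, mem_range]
    refine ⟨by show N' + 2 * s < x; omega, ?_⟩
    have hcard : ((PS ((Ico X (2 * X)).filter (fun n => ∀ t ≤ B0,
        (∃ v ∈ E.image (fun z => H z.1 z.2), v ≤ t) →
            ((n + s + t).Prime ↔ t ∈ E.image (fun z => H z.1 z.2)))) N').card : ℝ) ≤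
        ((repsE (E.image (fun z => H z.1 z.2)) B0 (N' + 2 * s)).card : ℝ) := by
      apply Nat.cast_le.2
      apply card_le_card_of_injOn (fun n => n + s)
      · intro n hn
        rw [mem_coe] at hn
        unfold PS at hn
        rw [mem_filter, mem_filter, mem_filter] at hn
        obtain ⟨⟨hn1, hn2⟩, hn3, hn4, hn5⟩ := hn
        unfold repsE
        rw [mem_coe, mem_filter, mem_range]
        rw [mem_Ico] at hn1 hn4
        refine ⟨by show n + s < N' + 2 * s; omega, ?_⟩
        intro t ht hex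
        have e3 : N' + 2 * s - (n + s) + t = N' - n + s + t := by omega
        refine ⟨hn2 t ht hex, ?_⟩
        show (N' + 2 * s - (n + s) + t).Prime ↔ _
        rw [e3]
        exact hn5 t ht hex
      · intro n _ n' _ he
        simp only at he
        omega
    refine le_trans ?_ (hN3.trans hcard)
    have hNX : X ≤ N' + 2 * s := by omega
    have hN5 : N' + 2 * s ≤ 5 * X := by omega
    have hNXr : (X : ℝ) ≤ ((N' + 2 * s : ℕ) : ℝ) := by exact_mod_cast hNX
    have hN5r : ((N' + 2 * s : ℕ) : ℝ) ≤ 5 * X := by exact_mod_cast hN5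
    have hlog : Real.log X ≤ Real.log ((N' + 2 * s : ℕ) : ℝ) := Real.log_le_log hX0 hNXr
    calc ((N' + 2 * s : ℕ) : ℝ) / Real.log ((N' + 2 * s : ℕ) : ℝ) ^ (2 * L + 2) ≤
        (5 * X) / Real.log X ^ (2 * L + 2) := by
          apply div_le_div₀ (by positivity) hN5r (by positivity)
          exact pow_le_pow_left₀ (by linarith) hlog _
      _ ≤ (Real.log X * X) / Real.log X ^ (2 * L + 2) := by
          apply div_le_div_of_nonneg_right _ (by positivity)
          exact mul_le_mul_of_nonneg_right hl hX0.le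
      _ = (X : ℝ) / Real.log X ^ (2 * L + 1) := by
          rw [show 2 * L + 2 = (2 * L + 1) + 1 by ring, pow_succ (Real.log X) (2 * L + 1)]
          field_simp
  · intro N _ N' _ he
    simp only at he
    omega


end Pool.Agent.Y827.SU
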