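import Mathlib
import Pool.Agent.Y863.AA.Msz
import Pool.Agent.W25.TF.Fin
import Pool.Agent.Y827.SU.PopX
import Pool.Agent.Y827.SU.Alm

/-! Project SU: sums of two primes which are followed by a prime gap of given length. -/

set_option autoImplicit false

open Finset Filter Topology

namespace Pool.Agent.Y827.SU

open Pool.Agent.H947R3.GM

/-- `p` and `p + D` are consecutive primes -/
def IsGap (D p : ℕ) : Prop := p.Prime ∧ (p + D).Prime ∧ ∀ t, 0 < t → t < D → ¬ (p + t).Prime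

open Classical in
/-- the representations `m = p + (m - p)` where `p` and `m - p` are primes followed by a gap of length `D` -/
noncomputable def repsG (D m : ℕ) : Finset ℕ :=
  (range m).filter (fun p => IsGap D p ∧ IsGap D (m - p))

open Classical in
/-- the number of the `m < x` with at least `m / (log m) ^ E` representations -/
noncomputable def richG (E D x : ℕ) : ℕ :=
  ((range x).filter (fun m : ℕ => (m : ℝ) / (Real.log m) ^ E ≤ ((repsG D m).card : ℝ))).card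

theorem shift_richG : ∃ m₀ : ℕ, ∀ (E : ℕ) (F : Finset ℕ) (w x a b : ℕ), a ∈ F → b ∈ F → a < b → b ≤ w →
    (∀ v ∈ F, a < v → v < b → False) →
    richE E F w x ≤ richG (E + 1) (b - a) x + (m₀ + 4 * a) := by
  classical
  have hlogt : Tendsto (fun X : ℕ => Real.log (X : ℝ)) atTop atTop :=
    Real.tendsto_log_atTop.comp tendsto_natCast_atTop_atTop
  obtain ⟨X5, hX5⟩ := eventually_atTop.1 (hlogt.eventually_ge_atTop (2 : ℝ))
  refine ⟨X5 + 1, fun E F w x a b ha hb hab hbw hadj => ?_⟩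
  set R := (range x).filter (fun m : ℕ => (m : ℝ) / (Real.log m) ^ E ≤ ((repsE F w m).card : ℝ)) with hR
  have hRc : R.card = richE E F w x := rfl
  set G := R.filter (fun m => X5 + 2 * a + 1 ≤ m ∧ m + 2 * a < x) with hG
  have h1 : R.card ≤ G.card + (X5 + 1 + 4 * a) := by
    have hsub : R ⊆ G ∪ (range (X5 + 2 * a + 1) ∪ Ico (x - 2 * a) x) := by
      intro m hm
      have hmx : m < x := mem_range.1 (mem_filter.1 hm).1
      rw [mem_union, mem_union, hG, mem_filter, mem_range, mem_Ico]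
      by_cases h1 : X5 + 2 * a + 1 ≤ m
      · by_cases h2 : m + 2 * a < x
        · exact Or.inl ⟨hm, h1, h2⟩
        · exact Or.inr (Or.inr ⟨by omega, hmx⟩)
      · exact Or.inr (Or.inl (by omega))
    refine (card_le_card hsub).trans ((card_union_le _ _).trans ?_)
    have h2 := card_union_le (range (X5 + 2 * a + 1)) (Ico (x - 2 * a) x)
    rw [card_range, Nat.card_Ico] at h2
    omega
  have hgap : ∀ z : ℕ, (∀ t ≤ w, (∃ v ∈ F, v ≤ t) → ((z + t).Prime ↔ t ∈ F)) → IsGap (b - a) (z + a) := by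
    intro z hz
    refine ⟨(hz a (by omega) ⟨a, ha, le_rfl⟩).2 ha, ?_, fun t ht1 ht2 => ?_⟩
    · have e : z + a + (b - a) = z + b := by omega
      rw [e]
      exact (hz b hbw ⟨a, ha, hab.le⟩).2 hb
    · intro hp
      have e : z + a + t = z + (a + t) := by omega
      rw [e] at hp
      exact hadj (a + t) ((hz (a + t) (by omega) ⟨a, ha, by omega⟩).1 hp) (by omega) (by omega)
  have h2 : G.card ≤ richG (E + 1) (b - a) x := by
    unfold richG
    apply card_le_card_of_injOn (fun m => m + 2 * a)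
    · intro m hm
      rw [mem_coe, hG, mem_filter, hR, mem_filter, mem_range] at hm
      obtain ⟨⟨hm1, hm2⟩, hm3, hm4⟩ := hm
      rw [mem_coe, mem_filter, mem_range]
      refine ⟨hm4, ?_⟩
      have hcard : ((repsE F w m).card : ℝ) ≤ ((repsG (b - a) (m + 2 * a)).card : ℝ) := by
        apply Nat.cast_le.2
        apply card_le_card_of_injOn (fun n => n + a)
        · intro n hn
          unfold repsE at hn
          unfold repsG
          rw [mem_coe, mem_filter, mem_range] at hn ⊢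
          obtain ⟨hn1, hn2⟩ := hn
          refine ⟨by show n + a < m + 2 * a; omega, ?_, ?_⟩
          · exact hgap n fun t ht hex => (hn2 t ht hex).1
          · have e3 : m + 2 * a - (n + a) = m - n + a := by omega
            show IsGap (b - a) (m + 2 * a - (n + a))
            rw [e3]
            exact hgap (m - n) fun t ht hex => (hn2 t ht hex).2
        · intro n _ n' _ he
          simp only at he
          omega
      refine le_trans ?_ (hm2.trans hcard)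
      have hl2 := hX5 m (by omega)
      have hm0 : (0 : ℝ) < m := by
        have : 0 < m := by omega
        exact_mod_cast this
      have hNXr : (m : ℝ) ≤ ((m + 2 * a : ℕ) : ℝ) := by exact_mod_cast Nat.le_add_right m (2 * a)
      have hN5r : ((m + 2 * a : ℕ) : ℝ) ≤ 2 * m := by
        have : m + 2 * a ≤ 2 * m := by omega
        exact_mod_cast this
      have hlog : Real.log m ≤ Real.log ((m + 2 * a : ℕ) : ℝ) := Real.log_le_log hm0 hNXr
      calc ((m + 2 * a : ℕ) : ℝ) / Real.log ((m + 2 * a : ℕ) : ℝ) ^ (E + 1) ≤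
          (2 * m) / Real.log m ^ (E + 1) := by
            apply div_le_div₀ (by positivity) hN5r (by positivity)
            exact pow_le_pow_left₀ (by linarith) hlog _
        _ ≤ (Real.log m * m) / Real.log m ^ (E + 1) := by
            apply div_le_div_of_nonneg_right _ (by positivity)
            exact mul_le_mul_of_nonneg_right hl2 hm0.le
        _ = (m : ℝ) / Real.log m ^ E := by
            rw [pow_succ (Real.log m) E]
            field_simp
    · intro N _ N' _ he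
      simp only at he
      omega
  omega

/-- two neighbours from different classes -/
theorem neighbours {α : Type*} [DecidableEq α] {K : ℕ} (H : α → Fin K → ℕ) (E : Finset (α × Fin K))
    (hinj : Function.Injective (fun y : α × Fin K => H y.1 y.2))
    (hE : 2 ≤ (E.image Prod.fst).card) : ∃ y ∈ E, ∃ y' ∈ E, y.1 ≠ y'.1 ∧ H y'.1 y'.2 < H y.1 y.2 ∧
      ∀ v ∈ E.image (fun z => H z.1 z.2), H y'.1 y'.2 < v → v < H y.1 y.2 → False := by
  classical
  set S := (E ×ˢ E).filter (fun z => z.1.1 ≠ z.2.1 ∧ H z.2.1 z.2.2 < H z.1.1 z.1.2) with hS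
  have hne : S.Nonempty := by
    obtain ⟨g₁, hg₁, g₂, hg₂, hne⟩ := one_lt_card.1 (by omega : 1 < (E.image Prod.fst).card)
    obtain ⟨y₁, hy₁, rfl⟩ := mem_image.1 hg₁
    obtain ⟨y₂, hy₂, rfl⟩ := mem_image.1 hg₂
    rcases lt_trichotomy (H y₁.1 y₁.2) (H y₂.1 y₂.2) with h | h | h
    · exact ⟨(y₂, y₁), mem_filter.2 ⟨mem_product.2 ⟨hy₂, hy₁⟩, fun h => hne h.symm, h⟩⟩
    · exfalso
      have : y₁ = y₂ := hinj h
      exact hne (by rw [this])
    · exact ⟨(y₁, y₂), mem_filter.2 ⟨mem_product.2 ⟨hy₁, hy₂⟩, hne, h⟩⟩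
  obtain ⟨z, hz, hmin⟩ := exists_min_image S (fun z => H z.1.1 z.1.2 - H z.2.1 z.2.2) hne
  obtain ⟨hz1, hz2, hz3⟩ := mem_filter.1 hz
  obtain ⟨hz4, hz5⟩ := mem_product.1 hz1
  refine ⟨z.1, hz4, z.2, hz5, hz2, hz3, ?_⟩
  intro v hv h1 h2
  obtain ⟨y, hy, rfl⟩ := mem_image.1 hv
  have h1' : H z.2.1 z.2.2 < H y.1 y.2 := h1
  have h2' : H y.1 y.2 < H z.1.1 z.1.2 := h2
  by_cases hc : y.1 = z.2.1
  · have h3 := hmin (z.1, y) (mem_filter.2 ⟨mem_product.2 ⟨hz4, hy⟩, by rw [hc]; exact hz2, h2'⟩)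
    have h4 : H z.1.1 z.1.2 - H z.2.1 z.2.2 ≤ H z.1.1 z.1.2 - H y.1 y.2 := h3
    omega
  · have h3 := hmin (y, z.2) (mem_filter.2 ⟨mem_product.2 ⟨hy, hz5⟩, hc, h1'⟩)
    have h4 : H z.1.1 z.1.2 - H z.2.1 z.2.2 ≤ H y.1 y.2 - H z.2.1 z.2.2 := h3
    omega

open Classical in
/-- the input for four classes -/
def PX (K E₁ : ℕ) : Prop := ∀ B0 : ℕ, ∃ c : ℝ, 0 < c ∧ ∀ᶠ x : ℕ in atTop, ∀ H : Fin 4 → Fin K → ℕ,
    Function.Injective (fun z : Fin 4 × Fin K => H z.1 z.2) → (∀ g i, H g i ≤ B0) →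
    (∀ p : ℕ, p.Prime → p ≤ 4 * K → ∃ r : ℤ, ∀ g i, ¬ (p : ℤ) ∣ r + H g i) →
    ∃ E : Finset (Fin 4 × Fin K), 1 + 1 ≤ (E.image Prod.fst).card ∧
    c * x ≤ (richE E₁ (E.image (fun z => H z.1 z.2)) B0 x : ℝ)

open Classical in
theorem gapAlm {K E₁ : ℕ} (hK : 1 ≤ K) (h : PX K E₁) (ε : ℝ) (hε : 0 < ε) : ∃ L : ℕ, ∀ B : ℕ,
    ∃ c : ℝ, 0 < c ∧ ∀ᶠ x : ℕ in atTop, ∀ u H : ℕ, L ≤ H → u + H ≤ B →
    (((Ioc u (u + H)).filter (fun k : ℕ => ∀ j : ℕ, 1 ≤ j → j ≤ R3 k →
      (richG (E₁ + 1) (2 * (j * k)) x : ℝ) < c * x)).card : ℝ) ≤ ε * H := by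
  obtain ⟨m₀, hm₀⟩ := shift_richG
  obtain ⟨L, -, hL⟩ := build K hK ε hε
  refine ⟨L, fun B => ?_⟩
  obtain ⟨B0, hB⟩ := hL B
  obtain ⟨c, hc, h⟩ := h B0
  have hlarge : ∀ᶠ x : ℕ in atTop, 2 * ((m₀ + 4 * B0 : ℕ) : ℝ) / c ≤ (x : ℝ) :=
    (tendsto_natCast_atTop_atTop (R := ℝ)).eventually_ge_atTop _
  refine ⟨c / 2, by positivity, ?_⟩
  filter_upwards [h, hlarge] with x hx hxl u H hLH hBu
  rw [div_le_iff₀ hc] at hxl
  by_contra hcon
  push Not at hcon
  obtain ⟨Hh, hinj, hbd, hadm, hdiff⟩ := hB u H hLH hBu _ (filter_subset _ _) hcon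
  obtain ⟨E, hE, hEr⟩ := hx Hh hinj hbd hadm
  obtain ⟨y, hy, y', hy', hne, hlt, hadj⟩ := neighbours Hh E hinj hE
  obtain ⟨k, hk, j, hj1, hj2, he⟩ := hdiff y.1 y.2 y'.1 y'.2 hne hlt
  have hbad := (mem_filter.1 hk).2 j hj1 hj2
  have h1 := hm₀ E₁ (E.image (fun z => Hh z.1 z.2)) B0 x (Hh y'.1 y'.2) (Hh y.1 y.2)
    (mem_image.2 ⟨_, hy', rfl⟩) (mem_image.2 ⟨_, hy, rfl⟩) hlt (hbd _ _) hadj
  rw [he] at h1
  have h2 : (richE E₁ (E.image (fun z => Hh z.1 z.2)) B0 x : ℝ) ≤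
      (richG (E₁ + 1) (2 * (j * k)) x : ℝ) + ((m₀ + 4 * B0 : ℕ) : ℝ) := by
    have h3 := hbd y'.1 y'.2
    have : richE E₁ (E.image (fun z => Hh z.1 z.2)) B0 x ≤
      richG (E₁ + 1) (2 * (j * k)) x + (m₀ + 4 * B0) := by omega
    exact_mod_cast this
  linarith

theorem input4 : ∃ K E₁ : ℕ, 1 ≤ K ∧ PX K E₁ := by
  obtain ⟨K, hK, h⟩ := popX 4 1 (by norm_num) (by norm_num)
  exact ⟨K, _, hK, h⟩

end Pool.Agent.Y827.SU
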