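import Mathlib
import Pool.Agent.Y827.RO.LamE
import Pool.Agent.Y827.RO.NinE
import Pool.Agent.Y827.SU.Sum

/-! Project SU: prime tuples with the constant `18 / 5` and a positive proportion of sums. -/

set_option autoImplicit false

open Finset Filter Topology

namespace Pool.Agent.Y827.SU

open Pool.Agent.H361R2.PP (JJ)
open Pool.Agent.TH882.DD (Ro)
open Pool.Agent.H947R3.GM Pool.Agent.Y827.GS Pool.Agent.Y827.RO

open Classical in
/-- the `n < m` for which all `n + v` and `m - n + v`, `v ∈ F`, are primes -/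
noncomputable def reps (F : Finset ℕ) (m : ℕ) : Finset ℕ :=
  (range m).filter (fun n => ∀ v ∈ F, (n + v).Prime ∧ (m - n + v).Prime)

open Classical in
/-- the number of the `m < x` with at least `m / (log m) ^ E` representations -/
noncomputable def rich (E : ℕ) (F : Finset ℕ) (x : ℕ) : ℕ :=
  ((range x).filter (fun m : ℕ => (m : ℝ) / (Real.log m) ^ E ≤ ((reps F m).card : ℝ))).card

theorem rich_anti {E : ℕ} {F F' : Finset ℕ} (h : F' ⊆ F) (x : ℕ) : rich E F x ≤ rich E F' x := by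
  classical
  unfold rich
  apply card_le_card
  intro m hm
  rw [mem_filter] at hm ⊢
  refine ⟨hm.1, hm.2.trans ?_⟩
  rw [Nat.cast_le]
  apply card_le_card
  intro n hn
  unfold reps at hn ⊢
  rw [mem_filter] at hn ⊢
  exact ⟨hn.1, fun v hv => hn.2 v (h hv)⟩

theorem popS (T M : ℕ) (hT : 1 ≤ T) (hTM : (18 / 5 : ℝ) * M < T) : ∃ K : ℕ, 1 ≤ K ∧
    ∀ B0 : ℕ, ∃ c : ℝ, 0 < c ∧ ∀ᶠ x : ℕ in atTop, ∀ H : Fin T → Fin K → ℕ,
    Function.Injective (fun z : Fin T × Fin K => H z.1 z.2) → (∀ g i, H g i ≤ B0) →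
    (∀ p : ℕ, p.Prime → p ≤ T * K → ∃ r : ℤ, ∀ g i, ¬ (p : ℤ) ∣ r + H g i) →
    ∃ E : Finset (Fin T × Fin K), M + 1 ≤ (E.image Prod.fst).card ∧
    c * x ≤ (rich (2 * (T * K + 1) + 2) (E.image (fun z => H z.1 z.2)) x : ℝ) := by
  classical
  obtain ⟨K, hK, δ, hδ, h⟩ := lamE0 T M hT hTM
  obtain ⟨s₀, c, hc, h⟩ := h 1
  refine ⟨K, hK, fun B0 => ?_⟩
  obtain ⟨L, hL⟩ : ∃ L, L = T * K + 1 := ⟨_, rfl⟩
  rw [← hL] at h ⊢
  obtain ⟨δ₁, hδ₁⟩ : ∃ δ₁, δ₁ = min δ 1 := ⟨_, rfl⟩
  have hδ₁0 : 0 < δ₁ := by rw [hδ₁]; exact lt_min hδ one_pos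
  have hδ₁1 : δ₁ ≤ 1 := by rw [hδ₁]; exact min_le_right _ _
  have hδ₁δ : δ₁ ≤ δ := by rw [hδ₁]; exact min_le_left _ _
  obtain ⟨c', hc', X1, hsum⟩ := sums L (s₀ + B0) δ₁ hδ₁0 hδ₁1 (c / (7 * 2 ^ L)) (by positivity)
  obtain ⟨X2, hw⟩ := Pool.Agent.H325R2.wtx.2 δ₁ hδ₁0 hδ₁1
  have key : ∀ᶠ N : ℕ in atTop, ∀ H : Fin T → Fin K → ℕ,
      Function.Injective (fun z : Fin T × Fin K => H z.1 z.2) → (∀ g i, H g i ≤ B0) →
      (∀ p : ℕ, p.Prime → p ≤ T * K → ∃ r : ℤ, ∀ g i, ¬ (p : ℤ) ∣ r + H g i) →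
      ∃ s ≤ s₀, ∃ E : Finset (Fin T × Fin K), M + 1 ≤ (E.image Prod.fst).card ∧
      ∃ X, N / 64 ≤ X ∧ X ≤ N ∧ c' * X ≤ (((Ico (2 * X) (4 * X)).filter (fun N =>
        (X : ℝ) / Real.log X ^ (2 * L + 1) ≤ ((PS ((Ico X (2 * X)).filter
          (fun n => ∀ x ∈ E, (n + s + H x.1 x.2).Prime)) N).card : ℝ))).card : ℝ) := by
    filter_upwards [h, eventually_ge_atTop (64 * (X1 + X2 + 128 + s₀ + B0) + 64)] with N hN hNl H hinj hHB0 hadm
    have hHB : ∀ x : Fin T × Fin K, H x.1 x.2 ≤ B0 := fun x => hHB0 _ _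
    obtain ⟨y, hy⟩ : ∃ y, y = N / 64 := ⟨_, rfl⟩
    have hyN : 64 * y ≤ N := by omega
    have hyN2 : N < 64 * y + 64 := by omega
    have hyl : X1 + X2 + 128 + s₀ + B0 ≤ y := by omega
    have hNr : (0 : ℝ) ≤ N := Nat.cast_nonneg N
    obtain ⟨s, E, hs, hne, -, hE, hcard⟩ := hN (fun g i => ((1 : ℤ), (H g i : ℤ)))
      (by
        intro x z hxz
        apply hinj
        simp only [Prod.mk.injEq, Nat.cast_inj, true_and] at hxz
        exact hxz)
      (by
        intro g i
        have hb := hHB (g, i)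
        simp only at hb
        refine ⟨one_ne_zero, by simp, ?_, isCoprime_one_left, ?_⟩
        · rw [abs_of_nonneg (Int.natCast_nonneg _)]
          have : H g i ≤ N := by omega
          exact_mod_cast this
        · intro t ht _
          have hh0 : (0 : ℝ) ≤ ((H g i : ℕ) : ℝ) := Nat.cast_nonneg _
          show (N : ℝ) / 24 ≤ ((1 : ℤ) : ℝ) * t + (((H g i : ℕ) : ℤ) : ℝ)
          push_cast
          linarith)
      (by
        intro p hp hpT
        obtain ⟨r, hr⟩ := hadm p hp hpT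
        refine ⟨r, fun g i => ?_⟩
        rw [one_mul]
        exact hr g i)
    refine ⟨s, hs, E, hE, ?_⟩
    set R := Re (fun g i => ((1 : ℤ), (H g i : ℤ))) δ s E N with hR
    have hmem : ∀ n ∈ R, n ≤ N ∧ N ≤ 16 * n ∧ s ≤ n ∧
        (∀ p : ℕ, p.Prime → Real.log p ≤ δ * Real.log N → ¬ p ∣ n - s) ∧
        (∀ g i, ∀ p : ℕ, p.Prime → Real.log p ≤ δ * Real.log N → ¬ p ∣ n + H g i) ∧
        (∀ x ∈ E, (n + H x.1 x.2).Prime) := by
      intro n hn
      rw [hR] at hn
      unfold Re at hn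
      rw [mem_filter, mem_Icc] at hn
      obtain ⟨⟨h1, h2⟩, h3, h4, h5, h6⟩ := hn
      have h16 : N ≤ 16 * n := by
        rw [div_le_iff₀ (by norm_num)] at h3
        have : (N : ℝ) ≤ ((16 * n : ℕ) : ℝ) := by push_cast; linarith
        exact_mod_cast this
      have hsn : s ≤ n := by omega
      refine ⟨h2, h16, hsn, ?_, ?_, ?_⟩
      · intro p hp hl hd
        apply h4 p hp hl
        have : ((p : ℕ) : ℤ) ∣ ((n - s : ℕ) : ℤ) := by exact_mod_cast hd
        rwa [Nat.cast_sub hsn] at this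
      · intro g i p hp hl hd
        apply h5 g i p hp hl
        show (p : ℤ) ∣ 1 * (n : ℤ) + (H g i : ℤ)
        rw [one_mul]
        exact_mod_cast hd
      · intro x hx
        have h7 := (h6 x.1 x.2).2 hx
        have e : ((1 : ℤ) * (n : ℤ) + (H x.1 x.2 : ℤ)).toNat = n + H x.1 x.2 := by
          rw [one_mul]
          exact_mod_cast Int.toNat_natCast (n + H x.1 x.2)
        have h8 : ((1 : ℤ) * (n : ℤ) + (H x.1 x.2 : ℤ)).toNat.Prime := h7
        rwa [e] at h8
    set A := R.image (fun n => n - s) with hA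
    have hAc : A.card = R.card := by
      rw [hA]
      apply card_image_of_injOn
      intro a ha b hb hab
      have h1 := (hmem a ha).2.2.1
      have h2 := (hmem b hb).2.2.1
      simp only at hab
      omega
    have hAm : ∀ m ∈ A, m + s ∈ R ∧ y ≤ m ∧ m < 128 * y := by
      intro m hm
      rw [hA, mem_image] at hm
      obtain ⟨n, hn, rfl⟩ := hm
      have h1 := hmem n hn
      have e : n - s + s = n := Nat.sub_add_cancel h1.2.2.1
      rw [e]
      exact ⟨hn, by omega, by omega⟩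
    have hy0 : 0 < y := by omega
    have hmaps : ∀ m ∈ A, Nat.log 2 (m / y) ∈ range 7 := by
      intro m hm
      have h1 := hAm m hm
      rw [mem_range]
      apply Nat.log_lt_of_lt_pow
      · have : 1 ≤ m / y := by rw [Nat.le_div_iff_mul_le hy0]; omega
        omega
      · rw [Nat.div_lt_iff_lt_mul hy0]
        have := h1.2.2
        norm_num
        omega
    have hfib := card_eq_sum_card_fiberwise (f := fun m => Nat.log 2 (m / y)) (s := A) (t := range 7)
      (fun m hm => mem_coe.2 (hmaps m (mem_coe.1 hm)))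
    obtain ⟨j, hj, hjc⟩ : ∃ j ∈ range 7, A.card ≤ 7 * (A.filter (fun m => Nat.log 2 (m / y) = j)).card := by
      by_contra hcon
      push Not at hcon
      have h1 : ∑ j ∈ range 7, 7 * (A.filter (fun m => Nat.log 2 (m / y) = j)).card <
          ∑ _j ∈ range 7, A.card := sum_lt_sum_of_nonempty (by simp) hcon
      rw [← mul_sum, ← hfib, sum_const, card_range, smul_eq_mul] at h1
      exact lt_irrefl _ h1
    set Aj := A.filter (fun m => Nat.log 2 (m / y) = j) with hAj
    obtain ⟨X, hX⟩ : ∃ X, X = 2 ^ j * y := ⟨_, rfl⟩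
    have hj6 : j ≤ 6 := by rw [mem_range] at hj; omega
    have h2j : 1 ≤ 2 ^ j := Nat.one_le_two_pow
    have h2j6 : 2 ^ j ≤ 64 := by
      calc 2 ^ j ≤ 2 ^ 6 := Nat.pow_le_pow_right (by norm_num) hj6
        _ = 64 := by norm_num
    have hyX : y ≤ X := by rw [hX]; exact Nat.le_mul_of_pos_left _ h2j
    have hXN : X ≤ N := by
      rw [hX]
      exact (Nat.mul_le_mul_right y h2j6).trans hyN
    have hAjI : Aj ⊆ Ico X (2 * X) := by
      intro m hm
      rw [hAj, mem_filter] at hm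
      obtain ⟨hm1, hm2⟩ := hm
      have h1 := hAm m hm1
      have h3 : m / y ≠ 0 := by
        have : 1 ≤ m / y := by rw [Nat.le_div_iff_mul_le hy0]; omega
        omega
      have h4 := Nat.pow_log_le_self 2 h3
      have h5 := Nat.lt_pow_succ_log_self (b := 2) (by norm_num) (m / y)
      rw [hm2] at h4 h5
      rw [Nat.le_div_iff_mul_le hy0] at h4
      rw [Nat.div_lt_iff_lt_mul hy0] at h5
      rw [mem_Ico, hX]
      refine ⟨h4, ?_⟩
      rw [pow_succ] at h5
      calc m < 2 ^ j * 2 * y := h5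
        _ = 2 * (2 ^ j * y) := by ring
    refine ⟨X, by omega, hXN, ?_⟩
    -- the set of shifts
    set U : Finset ℕ := insert 0 ((univ : Finset (Fin T × Fin K)).image (fun x => s + H x.1 x.2)) with hU
    have hUc : U.card = L := by
      rw [hU, card_insert_of_notMem, card_image_of_injective, card_univ, Fintype.card_prod,
        Fintype.card_fin, Fintype.card_fin, hL]
      · intro x z hxz
        apply hinj
        simp only at hxz ⊢
        omega
      · intro h0
        rw [mem_image] at h0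
        obtain ⟨x, -, hx⟩ := h0
        have h1 := hne x.1 x.2
        apply h1
        show (H x.1 x.2 : ℤ) + 1 * (s : ℤ) = 0
        rw [one_mul]
        have : H x.1 x.2 + s = 0 := by omega
        exact_mod_cast this
    have hUA : ∀ u ∈ U, u ≤ s₀ + B0 := by
      intro u hu
      rw [hU, mem_insert, mem_image] at hu
      rcases hu with rfl | ⟨x, -, rfl⟩
      · exact Nat.zero_le _
      · exact Nat.add_le_add hs (hHB x)
    have hX0 : (0 : ℝ) < X := by
      have : 0 < X := by omega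
      exact_mod_cast this
    have hXNr : (X : ℝ) ≤ N := by exact_mod_cast hXN
    have hro : ∀ m ∈ Aj, Ro δ₁ X U m := by
      intro m hm u hu p hp hplt
      have hm1 := hAm m (mem_filter.1 hm).1
      have hR1 := hmem _ hm1.1
      have hlog : Real.log p ≤ δ * Real.log N := by
        have h1 := (hw X (by omega)).1
        have h2 : (p : ℝ) ≤ (X : ℝ) ^ δ₁ := by
          refine le_trans ?_ h1
          have : (p : ℝ) ≤ ((2 ^ 2 ^ JJ δ₁ X : ℕ) : ℝ) := by exact_mod_cast hplt.le
          push_cast at this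
          exact this
        have hp0 : (0 : ℝ) < p := by exact_mod_cast hp.pos
        have h3 := Real.log_le_log hp0 h2
        rw [Real.log_rpow hX0] at h3
        have h4 : Real.log X ≤ Real.log N := Real.log_le_log hX0 hXNr
        have h5 : 0 ≤ Real.log N := Real.log_nonneg (by
          have : 1 ≤ N := by omega
          exact_mod_cast this)
        calc Real.log p ≤ δ₁ * Real.log X := h3
          _ ≤ δ₁ * Real.log N := mul_le_mul_of_nonneg_left h4 hδ₁0.le
          _ ≤ δ * Real.log N := mul_le_mul_of_nonneg_right hδ₁δ h5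
      rw [hU, mem_insert, mem_image] at hu
      rcases hu with rfl | ⟨x, -, rfl⟩
      · have h1 := hR1.2.2.2.1 p hp hlog
        rw [Nat.add_sub_cancel] at h1
        rwa [add_zero]
      · have h1 := hR1.2.2.2.2.1 x.1 x.2 p hp hlog
        rwa [← add_assoc]
    -- the size
    have hcardj : c / (7 * 2 ^ L) * (X / (Real.log X) ^ L) ≤ (Aj.card : ℝ) := by
      have hX128 : 128 ≤ X := by omega
      have hlX : 0 < Real.log X := Real.log_pos (by
        have : (128 : ℝ) ≤ X := by exact_mod_cast hX128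
        linarith)
      have hNX2 : (N : ℝ) ≤ (X : ℝ) ^ 2 := by
        have h1 : N ≤ X * X := by
          have h2 : N ≤ 128 * y := by omega
          exact h2.trans (Nat.mul_le_mul hX128 hyX)
        rw [sq]
        exact_mod_cast h1
      have hlN : Real.log N ≤ 2 * Real.log X := by
        have h1 := Real.log_le_log (by linarith : (0 : ℝ) < N) hNX2
        rw [Real.log_pow] at h1
        exact_mod_cast h1
      have hlN0 : 0 < Real.log N := lt_of_lt_of_le hlX (Real.log_le_log hX0 hXNr)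
      have h1 : (X : ℝ) / (Real.log X) ^ L ≤ 2 ^ L * (N / (Real.log N) ^ L) := by
        rw [← mul_div_assoc, div_le_div_iff₀ (by positivity) (by positivity)]
        have h2 : (Real.log N) ^ L ≤ (2 * Real.log X) ^ L := pow_le_pow_left₀ hlN0.le hlN L
        rw [mul_pow] at h2
        calc (X : ℝ) * Real.log N ^ L ≤ N * (2 ^ L * Real.log X ^ L) :=
              mul_le_mul hXNr h2 (by positivity) hNr
          _ = _ := by ring
      have h3 : (A.card : ℝ) ≤ 7 * (Aj.card : ℝ) := by exact_mod_cast hjc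
      rw [hAc] at h3
      calc c / (7 * 2 ^ L) * (X / (Real.log X) ^ L) ≤
          c / (7 * 2 ^ L) * (2 ^ L * (N / (Real.log N) ^ L)) :=
            mul_le_mul_of_nonneg_left h1 (by positivity)
        _ = c * (N / (Real.log N) ^ L) / 7 := by field_simp
        _ ≤ (R.card : ℝ) / 7 := div_le_div_of_nonneg_right hcard (by norm_num)
        _ ≤ Aj.card := by linarith
    have hfin := hsum X (by omega) U hUc (insert_nonempty _ _) hUA Aj hAjI hro hcardj
    refine hfin.trans ?_
    rw [Nat.cast_le]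
    apply card_le_card
    intro m hm
    rw [mem_filter] at hm ⊢
    refine ⟨hm.1, hm.2.trans ?_⟩
    rw [Nat.cast_le]
    apply card_le_card
    have hsub : Aj ⊆ (Ico X (2 * X)).filter (fun n => ∀ x ∈ E, (n + s + H x.1 x.2).Prime) := by
      intro n hn
      rw [mem_filter]
      refine ⟨hAjI hn, fun x hx => ?_⟩
      exact (hmem _ (hAm n (mem_filter.1 hn).1).1).2.2.2.2.2 x hx
    intro n hn
    unfold PS at hn ⊢
    rw [mem_filter] at hn ⊢
    exact ⟨hsub hn.1, hn.2.1, hsub hn.2.2⟩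
  obtain ⟨N0, hN0⟩ := eventually_atTop.1 key
  have hlogt : Tendsto (fun X : ℕ => Real.log (X : ℝ)) atTop atTop :=
    Real.tendsto_log_atTop.comp tendsto_natCast_atTop_atTop
  obtain ⟨X5, hX5⟩ := eventually_atTop.1 (hlogt.eventually_ge_atTop (5 : ℝ))
  refine ⟨c' / 1000, by positivity, ?_⟩
  filter_upwards [eventually_ge_atTop (5 * N0 + 640 * (X5 + 2 * s₀ + 2))] with x hx H hinj hHB0 hadm
  obtain ⟨N, hN⟩ : ∃ N, N = x / 5 := ⟨_, rfl⟩
  obtain ⟨s, hs, E, hE, X, hX1, hX2, hX⟩ := hN0 N (by omega) H hinj hHB0 hadm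
  refine ⟨E, hE, ?_⟩
  have hXl : X5 + 2 * s₀ + 1 ≤ X := by omega
  have hX0 : (0 : ℝ) < X := by
    have : 0 < X := by omega
    exact_mod_cast this
  have hl := hX5 X (by omega)
  have hxX : x ≤ 1000 * X := by omega
  have hxXr : (x : ℝ) ≤ 1000 * X := by exact_mod_cast hxX
  refine le_trans (by nlinarith : c' / 1000 * (x : ℝ) ≤ c' * X) (hX.trans ?_)
  unfold rich
  apply Nat.cast_le.2
  apply card_le_card_of_injOn (fun N => N + 2 * s)
  · intro N' hN'
    rw [mem_coe, mem_filter, mem_Ico] at hN'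
    obtain ⟨⟨hN1, hN2⟩, hN3⟩ := hN'
    rw [mem_coe, mem_filter, mem_range]
    refine ⟨by show N' + 2 * s < x; omega, ?_⟩
    have hcard : ((PS ((Ico X (2 * X)).filter (fun n => ∀ x ∈ E, (n + s + H x.1 x.2).Prime)) N').card : ℝ) ≤
        ((reps (E.image (fun z => H z.1 z.2)) (N' + 2 * s)).card : ℝ) := by
      apply Nat.cast_le.2
      apply card_le_card_of_injOn (fun n => n + s)
      · intro n hn
        rw [mem_coe] at hn
        unfold PS at hn
        rw [mem_filter, mem_filter, mem_filter] at hn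
        obtain ⟨⟨hn1, hn2⟩, hn3, hn4, hn5⟩ := hn
        unfold reps
        rw [mem_coe, mem_filter, mem_range]
        rw [mem_Ico] at hn1 hn4
        refine ⟨by show n + s < N' + 2 * s; omega, ?_⟩
        intro v hv
        obtain ⟨z, hz, rfl⟩ := mem_image.1 hv
        have e3 : N' + 2 * s - (n + s) + H z.1 z.2 = N' - n + s + H z.1 z.2 := by omega
        refine ⟨hn2 z hz, ?_⟩
        show (N' + 2 * s - (n + s) + H z.1 z.2).Prime
        rw [e3]
        exact hn5 z hz
      · intro n _ n' _ he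
        simp only at he
        omega
    refine le_trans ?_ (hN3.trans hcard)
    have hNX : X ≤ N' + 2 * s := by omega
    have hN5 : N' + 2 * s ≤ 5 * X := by omega
    have hNXr : (X : ℝ) ≤ ((N' + 2 * s : ℕ) : ℝ) := by exact_mod_cast hNX
    have hN5r : ((N' + 2 * s : ℕ) : ℝ) ≤ 5 * X := by exact_mod_cast hN5
    have hlog : Real.log X ≤ Real.log ((N' + 2 * s : ℕ) : ℝ) := Real.log_le_log hX0 hNXr
    calc ((N' + 2 * s : ℕ) : ℝ) / Real.log ((N' + 2 * s : ℕ) : ℝ) ^ (2 * L + 2) ≤
        (5 * X) / Real.log X ^ (2 * L + 2) := by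
          apply div_le_div₀ (by positivity) hN5r (by positivity)
          exact pow_le_pow_left₀ (by linarith) hlog _
      _ ≤ (Real.log X * X) / Real.log X ^ (2 * L + 2) := by
          apply div_le_div_of_nonneg_right _ (by positivity)
          exact mul_le_mul_of_nonneg_right hl hX0.le
      _ = (X : ℝ) / Real.log X ^ (2 * L + 1) := by
          rw [show 2 * L + 2 = (2 * L + 1) + 1 by ring, pow_succ (Real.log X) (2 * L + 1)]
          field_simp
  · intro N _ N' _ he
    simp only at he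
    omega

/-- one family for infinitely many `x` -/
theorem popular (T M : ℕ) (hT : 1 ≤ T) (hTM : (18 / 5 : ℝ) * M < T) : ∃ K : ℕ, 1 ≤ K ∧
    ∀ H : Fin T → Fin K → ℕ, AdmN 1 H → ∃ E : Finset (Fin T × Fin K),
    M + 1 ≤ (E.image Prod.fst).card ∧ ∃ c : ℝ, 0 < c ∧ ∃ᶠ x : ℕ in atTop,
    c * x ≤ (rich (2 * (T * K + 1) + 2) (E.image (fun z => H z.1 z.2)) x : ℝ) := by
  classical
  obtain ⟨K, hK, h⟩ := popS T M hT hTM
  refine ⟨K, hK, fun H hadm => ?_⟩
  obtain ⟨B0, hB0⟩ : ∃ B0, B0 = (univ : Finset (Fin T × Fin K)).sup (fun x => H x.1 x.2) := ⟨_, rfl⟩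
  obtain ⟨c, hc, h⟩ := h B0
  have h' : ∀ᶠ x : ℕ in atTop, ∃ E : Finset (Fin T × Fin K), M + 1 ≤ (E.image Prod.fst).card ∧
      c * x ≤ (rich (2 * (T * K + 1) + 2) (E.image (fun z => H z.1 z.2)) x : ℝ) := by
    filter_upwards [h] with x hx
    refine hx H hadm.1 (fun g i => ?_) (fun p hp _ => ?_)
    · rw [hB0]
      exact Finset.le_sup (f := fun x : Fin T × Fin K => H x.1 x.2) (mem_univ (g, i))
    · exact hadm.2 p hp (by rw [Nat.dvd_one]; exact hp.one_lt.ne')
  by_contra hcon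
  have h1 : ∀ E : Finset (Fin T × Fin K), ∀ᶠ x : ℕ in atTop, M + 1 ≤ (E.image Prod.fst).card →
      ¬ c * x ≤ (rich (2 * (T * K + 1) + 2) (E.image (fun z => H z.1 z.2)) x : ℝ) := by
    intro E
    by_cases hz : M + 1 ≤ (E.image Prod.fst).card
    · by_contra h2
      apply hcon
      refine ⟨E, hz, c, hc, ?_⟩
      intro h3
      apply h2
      filter_upwards [h3] with X hX _
      exact hX
    · exact Eventually.of_forall fun X h => absurd h hz
  obtain ⟨x, hx1, hx2⟩ := ((eventually_all.2 h1).and h').exists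
  obtain ⟨E, hE, hB⟩ := hx2
  exact hx1 E hE hB

/-- a positive proportion of the integers below infinitely many `x` are rich sums of two elements of a pair with
difference `D` -/
def GoodSum (E₀ D : ℕ) : Prop := ∃ c : ℝ, 0 < c ∧ ∃ᶠ x : ℕ in atTop, c * x ≤ (rich E₀ {0, D} x : ℝ)

theorem good_of {E₀ : ℕ} {F : Finset ℕ} {c : ℝ} (hc : 0 < c)
    (h : ∃ᶠ x : ℕ in atTop, c * x ≤ (rich E₀ F x : ℝ)) {a b : ℕ} (ha : a ∈ F) (hb : b ∈ F) (hab : a < b) :
    GoodSum (E₀ + 1) (b - a) := by
  classical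
  refine ⟨c / 4, by positivity, ?_⟩
  have hlogt : Tendsto (fun X : ℕ => Real.log (X : ℝ)) atTop atTop :=
    Real.tendsto_log_atTop.comp tendsto_natCast_atTop_atTop
  obtain ⟨X5, hX5⟩ := eventually_atTop.1 (hlogt.eventually_ge_atTop (2 : ℝ))
  obtain ⟨m₀, hm₀⟩ : ∃ m₀, m₀ = X5 + 2 * a + 1 := ⟨_, rfl⟩
  have h5 : Tendsto (fun X : ℕ => X + 2 * a) atTop atTop :=
    tendsto_atTop_mono (fun x => Nat.le_add_right x (2 * a)) tendsto_id
  refine h5.frequently ?_
  have hev : ∀ᶠ x : ℕ in atTop, 2 * (m₀ : ℝ) / c ≤ x :=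
    (tendsto_natCast_atTop_atTop (R := ℝ)).eventually_ge_atTop _
  refine (h.and_eventually (hev.and (eventually_ge_atTop (2 * a + 1)))).mono ?_
  rintro x ⟨hx, hl, hxb⟩
  rw [div_le_iff₀ hc] at hl
  have hxr : (0 : ℝ) ≤ x := Nat.cast_nonneg x
  have hbr : ((x + 2 * a : ℕ) : ℝ) ≤ 2 * x := by
    have : x + 2 * a ≤ 2 * x := by omega
    exact_mod_cast this
  set R := (range x).filter (fun m : ℕ => (m : ℝ) / (Real.log m) ^ E₀ ≤ ((reps F m).card : ℝ)) with hR
  have hRc : (R.card : ℝ) = (rich E₀ F x : ℝ) := rfl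
  have h1 : R.card ≤ (R.filter (fun m => m₀ ≤ m)).card + m₀ := by
    rw [← card_filter_add_card_filter_not (s := R) (fun m => m₀ ≤ m)]
    apply Nat.add_le_add_left
    calc (R.filter (fun m => ¬ m₀ ≤ m)).card ≤ (range m₀).card := by
          apply card_le_card
          intro m hm
          rw [mem_filter] at hm
          rw [mem_range]
          omega
      _ = m₀ := card_range _
  have h2 : (R.filter (fun m => m₀ ≤ m)).card ≤ rich (E₀ + 1) {0, b - a} (x + 2 * a) := by
    unfold rich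
    apply card_le_card_of_injOn (fun m => m + 2 * a)
    · intro m hm
      rw [mem_coe, mem_filter, hR, mem_filter, mem_range] at hm
      obtain ⟨⟨hm1, hm2⟩, hm3⟩ := hm
      rw [mem_coe, mem_filter, mem_range]
      refine ⟨by show m + 2 * a < x + 2 * a; omega, ?_⟩
      have hcard : ((reps F m).card : ℝ) ≤ ((reps {0, b - a} (m + 2 * a)).card : ℝ) := by
        apply Nat.cast_le.2
        apply card_le_card_of_injOn (fun n => n + a)
        · intro n hn
          unfold reps at hn ⊢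
          rw [mem_coe, mem_filter, mem_range] at hn ⊢
          obtain ⟨hn1, hn2⟩ := hn
          refine ⟨by show n + a < m + 2 * a; omega, ?_⟩
          intro v hv
          rw [mem_insert, mem_singleton] at hv
          rcases hv with rfl | rfl
          · have e3 : m + 2 * a - (n + a) + 0 = m - n + a := by omega
            refine ⟨?_, ?_⟩
            · show (n + a + 0).Prime
              rw [add_zero]
              exact (hn2 a ha).1
            · show (m + 2 * a - (n + a) + 0).Prime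
              rw [e3]
              exact (hn2 a ha).2
          · have e2 : n + a + (b - a) = n + b := by omega
            have e3 : m + 2 * a - (n + a) + (b - a) = m - n + b := by omega
            refine ⟨?_, ?_⟩
            · show (n + a + (b - a)).Prime
              rw [e2]
              exact (hn2 b hb).1
            · show (m + 2 * a - (n + a) + (b - a)).Prime
              rw [e3]
              exact (hn2 b hb).2
        · intro n _ n' _ he
          simp only at he
          omega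
      refine le_trans ?_ (hm2.trans hcard)
      have hl2 := hX5 m (by omega)
      have hm0 : (0 : ℝ) < m := by
        have : 0 < m := by omega
        exact_mod_cast this
      have hNXr : (m : ℝ) ≤ ((m + 2 * a : ℕ) : ℝ) := by exact_mod_cast Nat.le_add_right m (2 * a)
      have hN5r : ((m + 2 * a : ℕ) : ℝ) ≤ 2 * m := by
        have : m + 2 * a ≤ 2 * m := by omega
        exact_mod_cast this
      have hlog : Real.log m ≤ Real.log ((m + 2 * a : ℕ) : ℝ) := Real.log_le_log hm0 hNXr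
      calc ((m + 2 * a : ℕ) : ℝ) / Real.log ((m + 2 * a : ℕ) : ℝ) ^ (E₀ + 1) ≤
          (2 * m) / Real.log m ^ (E₀ + 1) := by
            apply div_le_div₀ (by positivity) hN5r (by positivity)
            exact pow_le_pow_left₀ (by linarith) hlog _
        _ ≤ (Real.log m * m) / Real.log m ^ (E₀ + 1) := by
            apply div_le_div_of_nonneg_right _ (by positivity)
            exact mul_le_mul_of_nonneg_right hl2 hm0.le
        _ = (m : ℝ) / Real.log m ^ E₀ := by
            rw [pow_succ (Real.log m) E₀]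
            field_simp
    · intro N _ N' _ he
      simp only at he
      omega
  have h1r : (R.card : ℝ) ≤ ((R.filter (fun m => m₀ ≤ m)).card : ℝ) + m₀ := by exact_mod_cast h1
  have h2r : ((R.filter (fun m => m₀ ≤ m)).card : ℝ) ≤ (rich (E₀ + 1) {0, b - a} (x + 2 * a) : ℝ) := by
    exact_mod_cast h2
  rw [hRc] at h1r
  have h3 : c / 4 * ((x + 2 * a : ℕ) : ℝ) ≤ c / 4 * (2 * x) := mul_le_mul_of_nonneg_left hbr (by positivity)
  linarith

open Pool.Agent.W142.TF Pool.Agent.W142.TB in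
theorem sumWin (ε : ℝ) (hε : 0 < ε) : ∃ E₀ : ℕ,
    ∃ M : ℕ, 0 < M ∧ ∀ N : ℕ, 0 < N → M ∣ N → ∃ L : ℕ, ∀ T : ℕ, L ≤ T → ∀ u : ℕ,
      (5 / 9 - ε) * T ≤
        ({k : ℕ | u < k ∧ k ≤ u + T ∧ N * k ∈ {D : ℕ | GoodSum E₀ D}}.ncard : ℝ) := by
  classical
  obtain ⟨lam, hlam⟩ : ∃ lam : ℝ, lam = 18 / 5 := ⟨_, rfl⟩
  rw [show (5 / 9 : ℝ) = 2 / lam by rw [hlam]; norm_num]
  obtain ⟨β, hβ⟩ : ∃ β : ℝ, β = 1 / lam := ⟨_, rfl⟩
  have h4 : 0 < lam := by linarith
  have hβ5 : 1 / 5 ≤ β := by
    rw [hβ, div_le_div_iff₀ (by norm_num) h4]; linarith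
  have hβ2 : β ≤ 1 / 2 := by
    rw [hβ, div_le_div_iff₀ h4 (by norm_num)]; linarith
  have hβc : 2 / lam = 2 * β := by rw [hβ]; ring
  obtain ⟨n₀, hn₀⟩ := s_maiB β hβ5 hβ2 ε hε
  obtain ⟨n, hn⟩ : ∃ n, n = max n₀ 1 := ⟨_, rfl⟩
  have hnn₀ : n₀ ≤ n := by omega
  have hn1 : 1 ≤ n := by omega
  have hn1' : (1 : ℝ) ≤ n := by exact_mod_cast hn1
  obtain ⟨M', hM'⟩ : ∃ M', M' = ⌈β * n⌉₊ - 1 := ⟨_, rfl⟩
  have hβn : 0 < β * n := by positivity
  have hceil : 0 < ⌈β * n⌉₊ := Nat.ceil_pos.2 hβn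
  have hM'1 : M' + 1 = ⌈β * n⌉₊ := by omega
  have hM'lt : (M' : ℝ) < β * n := by
    have h := Nat.ceil_lt_add_one hβn.le
    have h2 : ((M' + 1 : ℕ) : ℝ) = (⌈β * n⌉₊ : ℝ) := by rw [hM'1]
    push_cast at h2
    linarith
  have hM'n : lam * M' < n := by
    have h : lam * M' < lam * (β * n) := mul_lt_mul_of_pos_left hM'lt h4
    have e : lam * (β * n) = n := by rw [hβ]; field_simp
    linarith
  obtain ⟨K, hK, hQ⟩ := popular n M' hn1 (by rw [← hlam]; exact hM'n)
  obtain ⟨E₀, hE₀⟩ : ∃ E₀, E₀ = 2 * (n * K + 1) + 2 + 1 := ⟨_, rfl⟩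
  refine ⟨E₀, ?_⟩
  obtain ⟨M, hM, hall⟩ := windows {D : ℕ | GoodSum E₀ D} (n * K).factorial
    (Nat.factorial_pos _) (2 * β) ε
    (fun hall => by
      obtain ⟨Q, A, s, hs, hQ1, hinj, hcr⟩ := hn₀ n hnn₀
        {k : ℤ | (((n * K).factorial : ℕ) : ℤ) * k ∈ Cpl {D : ℕ | GoodSum E₀ D}}
        (fun M hM => by
          obtain ⟨Q, h1, h2, h3⟩ := hall M hM
          exact ⟨Q, h1, h2, fun L₀ => h3 L₀⟩) (n * K)
      -- distinct points
      obtain ⟨σ, hσ1, hσ2⟩ := select_aux n K (fun g i => (Q g : ℤ) * A g i) (fun g => by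
        intro x hx y hy hxy
        have hQ0 : (Q g : ℤ) ≠ 0 := by have := hQ1 g; omega
        exact hinj g hx hy (mul_left_cancel₀ hQ0 hxy)) n le_rfl
      obtain ⟨H, C, hH⟩ := points n K (n * K).factorial Q (fun g i => A g (σ g i))
      have hM0 : (((n * K).factorial : ℕ) : ℤ) ≠ 0 := by exact_mod_cast (Nat.factorial_pos (n * K)).ne'
      have hHinj : ∀ (g g' : Fin n) (i i' : Fin K), H g i = H g' i' → g = g' ∧ i = i' := by
        intro g g' i i' h
        have e : (((n * K).factorial : ℕ) : ℤ) * (Q g * A g (σ g i) + C) =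
            ((n * K).factorial : ℕ) * (Q g' * A g' (σ g' i') + C) := by rw [← hH, ← hH, h]
        have e1 := mul_left_cancel₀ hM0 e
        have e2 : (Q g : ℤ) * A g (σ g i) = Q g' * A g' (σ g' i') := by linarith
        have e3 := hσ2 g g.2 g' g'.2 i i.2 i' i'.2 e2
        exact ⟨Fin.ext e3.1, Fin.ext e3.2⟩
      have hadm : AdmN 1 H := by
        refine admN_of' H (fun x y h => ?_) fun p hp hle g i => ?_
        · have := hHinj x.1 y.1 x.2 y.2 h
          exact Prod.ext this.1 this.2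
        · rw [hH]
          exact Dvd.dvd.mul_right (Int.natCast_dvd_natCast.2 (Nat.dvd_factorial hp.pos hle)) _
      obtain ⟨E, hS, c, hc, hfr⟩ := hQ H hadm
      obtain ⟨i, hi, j, hj, hij⟩ := hs.2 ((E.image Prod.fst).map Fin.valEmbedding) (fun x hx => by
        rw [Finset.mem_map] at hx
        obtain ⟨y, _, rfl⟩ := hx
        exact mem_range.2 y.2) (by
          rw [card_map]
          refine (Nat.le_ceil _).trans ?_
          rw [← hM'1]
          exact_mod_cast hS)
      rw [Finset.mem_map] at hi hj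
      obtain ⟨i', hi', rfl⟩ := hi
      obtain ⟨j', hj', rfl⟩ := hj
      obtain ⟨⟨g, ci⟩, hgE, hgi⟩ := mem_image.1 hi'
      obtain ⟨⟨g', cj⟩, hgE', hgj⟩ := mem_image.1 hj'
      simp only at hgi hgj
      subst hgi hgj
      have hd := hcr g' g'.2 g hij (σ g' cj) (σ g ci) (hσ1 _ g'.2 _ cj.2) (hσ1 _ g.2 _ ci.2)
      have h := not_Cpl C (hH g' cj) (hH g ci) hd
      rcases lt_or_gt_of_ne h.1 with hlt | hlt
      · refine h.2.1 hlt ?_
        rw [Set.mem_setOf_eq, hE₀]
        exact good_of hc hfr (mem_image.2 ⟨_, hgE', rfl⟩) (mem_image.2 ⟨_, hgE, rfl⟩) hlt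
      · refine h.2.2 hlt ?_
        rw [Set.mem_setOf_eq, hE₀]
        exact good_of hc hfr (mem_image.2 ⟨_, hgE, rfl⟩) (mem_image.2 ⟨_, hgE', rfl⟩) hlt)
  refine ⟨M, hM, fun N hN hd => ?_⟩
  obtain ⟨L, hL⟩ := hall N hN hd
  refine ⟨L, fun T hT u => le_trans ?_ (hL T hT u)⟩
  exact mul_le_mul_of_nonneg_right (by linarith) (Nat.cast_nonneg _)

end Pool.Agent.Y827.SU
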