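import Mathlib
import Pool.Agent.Y827.RO.NarF
import Pool.Agent.Y827.SU.Pop

/-! Project SU: the hereditary form, at every scale. -/

set_option autoImplicit false

open Finset Filter Topology

namespace Pool.Agent.Y827.SU

open Pool.Agent.W25.QL
open Pool.Agent.Y827.LS
open Pool.Agent.Y827.RO

theorem popD (T : ℕ) : ∃ K : ℕ, 1 ≤ K ∧ (1 ≤ T → ∀ B0 : ℕ, ∃ c : ℝ, 0 < c ∧ ∀ᶠ x : ℕ in atTop,
    ∀ H : Fin T → Fin K → ℕ,
    Function.Injective (fun z : Fin T × Fin K => H z.1 z.2) → (∀ g i, H g i ≤ B0) →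
    (∀ p : ℕ, p.Prime → p ≤ T * K → ∃ r : ℤ, ∀ g i, ¬ (p : ℤ) ∣ r + H g i) →
    ∃ (S : Finset (Fin T)) (cc : Fin T → Fin K), (T : ℝ) ≤ (18 / 5) * (S.card : ℝ) ∧
      c * x ≤ (rich (2 * (T * K + 1) + 2) (S.image (fun g => H g (cc g))) x : ℝ)) := by
  classical
  rcases Nat.eq_zero_or_pos T with rfl | hT
  · exact ⟨1, le_rfl, fun h => absurd h (by norm_num)⟩
  obtain ⟨M, hM1, hM2⟩ := ceilM T hT
  obtain ⟨K, hK, h⟩ := popS T M hT hM1
  refine ⟨K, hK, fun _ B0 => ?_⟩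
  obtain ⟨c, hc, h⟩ := h B0
  refine ⟨c, hc, ?_⟩
  filter_upwards [h] with x hx H hinj hB hadm
  obtain ⟨E, hE, hE2⟩ := hx H hinj hB hadm
  have hsel : ∀ g : Fin T, ∃ i : Fin K, g ∈ E.image Prod.fst → (g, i) ∈ E := by
    intro g
    by_cases hg : g ∈ E.image Prod.fst
    · obtain ⟨⟨g', i⟩, hgi, rfl⟩ := mem_image.1 hg
      exact ⟨i, fun _ => hgi⟩
    · exact ⟨⟨0, hK⟩, fun h => absurd h hg⟩
  choose cc hcc using hsel
  refine ⟨E.image Prod.fst, cc, hM2.trans (mul_le_mul_of_nonneg_left (by exact_mod_cast hE) (by norm_num)),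
    hE2.trans ?_⟩
  rw [Nat.cast_le]
  apply rich_anti
  intro v hv
  obtain ⟨g, hg, rfl⟩ := mem_image.1 hv
  exact mem_image.2 ⟨(g, cc g), hcc g hg, rfl⟩

/-- larger exponents -/
theorem rich_exp {E E' : ℕ} (h : E ≤ E') (F : Finset ℕ) (x : ℕ) : rich E F x ≤ rich E' F x + 3 := by
  classical
  unfold rich
  set R := (range x).filter (fun m : ℕ => (m : ℝ) / (Real.log m) ^ E ≤ ((reps F m).card : ℝ)) with hR
  rw [← card_filter_add_card_filter_not (s := R) (fun m => 3 ≤ m)]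
  apply Nat.add_le_add
  · apply card_le_card
    intro m hm
    rw [mem_filter, hR, mem_filter] at hm
    obtain ⟨⟨h1, h2⟩, h3⟩ := hm
    rw [mem_filter]
    refine ⟨h1, le_trans ?_ h2⟩
    have hl := log_ge_one h3
    exact div_le_div_of_nonneg_left (Nat.cast_nonneg _) (by positivity) (pow_le_pow_right₀ hl h)
  · calc (R.filter (fun m => ¬ 3 ≤ m)).card ≤ (range 3).card := by
          apply card_le_card
          intro m hm
          rw [mem_filter] at hm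
          rw [mem_range]
          omega
      _ = 3 := card_range _

theorem lower_bound (s : Finset ℕ) (f : ℕ → ℝ) (hf : ∀ i ∈ s, 0 < f i) : ∃ c : ℝ, 0 < c ∧ ∀ i ∈ s, c ≤ f i := by
  classical
  induction s using Finset.induction_on with
  | empty => exact ⟨1, one_pos, fun i hi => absurd hi (notMem_empty i)⟩
  | insert a s _ ih =>
    obtain ⟨c, hc, h⟩ := ih (fun i hi => hf i (mem_insert_of_mem hi))
    refine ⟨min c (f a), lt_min hc (hf a (mem_insert_self a s)), fun i hi => ?_⟩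
    rcases mem_insert.1 hi with rfl | hi
    · exact min_le_right _ _
    · exact (min_le_left _ _).trans (h i hi)

open Classical in
theorem sumHer (k : ℕ) (ε : ℝ) (hε : 0 < ε) : ∃ z n₀ E₀ : ℕ, ∀ V : Finset ℕ,
    (∀ p : ℕ, p ≤ z → p.Prime → ∃ r : ℤ, ∀ v ∈ V, ¬ (p : ℤ) ∣ r + v) → n₀ ≤ V.card →
    ∃ c : ℝ, 0 < c ∧ ∀ᶠ x : ℕ in atTop, (dn k - ε) * (V.card : ℝ) ^ (k + 1) ≤
      (((Fintype.piFinset (fun _ : Fin (k + 1) => V)).filter (fun f => Function.Injective f ∧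
        c * x ≤ (rich E₀ (univ.image f) x : ℝ))).card : ℝ) := by
  choose Kf hKf1 hKf using popD
  obtain ⟨T, M, hT, hM⟩ := main_gen (lam := 18 / 5) (by norm_num) k (dn k)
    (dn_le k) (hcountL k) ε hε Kf
  obtain ⟨n₀, hn₀⟩ := hM Unit
  set E₀ : ℕ := ∑ T' ∈ range (M + 1), (2 * (T' * Kf T' + 1) + 2) with hE₀
  refine ⟨∑ T' ∈ range (M + 1), T' * Kf T', n₀, E₀, ?_⟩
  intro V hVadm hVn
  set B0 : ℕ := V.sup id with hB0
  have hex : ∀ T' : ℕ, ∃ c : ℝ, 0 < c ∧ (1 ≤ T' → ∀ᶠ x : ℕ in atTop,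
    ∀ H : Fin T' → Fin (Kf T') → ℕ,
    Function.Injective (fun z : Fin T' × Fin (Kf T') => H z.1 z.2) → (∀ g i, H g i ≤ B0) →
    (∀ p : ℕ, p.Prime → p ≤ T' * Kf T' → ∃ r : ℤ, ∀ g i, ¬ (p : ℤ) ∣ r + H g i) →
    ∃ (S : Finset (Fin T')) (cc : Fin T' → Fin (Kf T')), (T' : ℝ) ≤ (18 / 5) * (S.card : ℝ) ∧
      c * x ≤ (rich (2 * (T' * Kf T' + 1) + 2) (S.image (fun g => H g (cc g))) x : ℝ)) := by
    intro T'
    by_cases h0 : 1 ≤ T'
    · obtain ⟨c, hc, h⟩ := hKf T' h0 B0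
      exact ⟨c, hc, fun _ => h⟩
    · exact ⟨1, one_pos, fun h => absurd h h0⟩
  choose cf hcf hev using hex
  obtain ⟨c, hc, hcle⟩ := lower_bound (range (M + 1)) cf (fun i _ => hcf i)
  refine ⟨c / 2, by positivity, ?_⟩
  have hev' : ∀ᶠ x : ℕ in atTop, ∀ T' : Fin (M + 1), 1 ≤ (T' : ℕ) →
    ∀ H : Fin (T' : ℕ) → Fin (Kf T') → ℕ,
    Function.Injective (fun z : Fin (T' : ℕ) × Fin (Kf T') => H z.1 z.2) → (∀ g i, H g i ≤ B0) →
    (∀ p : ℕ, p.Prime → p ≤ T' * Kf T' → ∃ r : ℤ, ∀ g i, ¬ (p : ℤ) ∣ r + H g i) →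
    ∃ (S : Finset (Fin (T' : ℕ))) (cc : Fin (T' : ℕ) → Fin (Kf T')),
      ((T' : ℕ) : ℝ) ≤ (18 / 5) * (S.card : ℝ) ∧
      cf T' * x ≤ (rich (2 * (T' * Kf T' + 1) + 2) (S.image (fun g => H g (cc g))) x : ℝ) := by
    rw [eventually_all]
    intro T'
    by_cases h0 : 1 ≤ (T' : ℕ)
    · filter_upwards [hev T' h0] with x hx _
      exact hx
    · exact Eventually.of_forall fun x h => absurd h h0
  have hlarge : ∀ᶠ x : ℕ in atTop, 6 / c ≤ (x : ℝ) :=
    (tendsto_natCast_atTop_atTop (R := ℝ)).eventually_ge_atTop _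
  filter_upwards [hev', hlarge] with x hx hxl
  rw [div_le_iff₀ hc] at hxl
  have key := hn₀ ℕ V (fun _ => ())
    (fun F => c / 2 * x ≤ (rich E₀ F x : ℝ)) hVn
    (fun F F' hF h => h.trans (by exact_mod_cast rich_anti hF x)) (by
      intro T' hT'1 hT'M H hHV hHinj _
      have hadm : ∀ p : ℕ, p.Prime → p ≤ T' * Kf T' → ∃ r : ℤ, ∀ g i, ¬ (p : ℤ) ∣ r + H g i := by
        intro p hp hpT
        obtain ⟨r, hr⟩ := hVadm p (hpT.trans
          (Finset.single_le_sum (f := fun T' => T' * Kf T') (fun _ _ => Nat.zero_le _)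
                (mem_range.2 (by omega)))) hp
        exact ⟨r, fun g i => hr _ (hHV g i)⟩
      obtain ⟨S, cc, hS, hcc⟩ := hx ⟨T', by omega⟩ hT'1 H hHinj
        (fun g i => by rw [hB0]; exact Finset.le_sup (f := id) (hHV g i)) hadm
      refine ⟨S, cc, hS, ?_⟩
      have h1 : c * (x : ℝ) ≤ cf T' * x :=
        mul_le_mul_of_nonneg_right (hcle T' (mem_range.2 (by omega))) (Nat.cast_nonneg _)
      have h2 : rich (2 * (T' * Kf T' + 1) + 2) (S.image (fun g => H g (cc g))) x ≤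
          rich E₀ (S.image (fun g => H g (cc g))) x + 3 :=
        rich_exp (by
          rw [hE₀]
          exact single_le_sum (f := fun T' => 2 * (T' * Kf T' + 1) + 2) (fun _ _ => Nat.zero_le _)
            (mem_range.2 (by omega))) _ x
      have h3 : (rich (2 * (T' * Kf T' + 1) + 2) (S.image (fun g => H g (cc g))) x : ℝ) ≤
          (rich E₀ (S.image (fun g => H g (cc g))) x : ℝ) + 3 := by exact_mod_cast h2
      have hcc' : cf T' * x ≤ (rich (2 * (T' * Kf T' + 1) + 2) (S.image (fun g => H g (cc g))) x : ℝ) := hcc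
      show c / 2 * (x : ℝ) ≤ (rich E₀ (S.image (fun g => H g (cc g))) x : ℝ)
      linarith)
  refine key.trans (le_of_eq ?_)
  congr 2

end Pool.Agent.Y827.SU
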