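import Mathlib
import Pool.Agent.Y827.SU.Gap

/-! Project SU: one half of the multiples of every sufficiently divisible number. -/

set_option autoImplicit false

open Finset Filter Topology

namespace Pool.Agent.Y827.SU

open Pool.Agent.H947R3.GM

/-- for infinitely many `x` a positive proportion of the integers below `x` are rich sums -/
def GoodG (E D : ℕ) : Prop := ∃ c : ℝ, 0 < c ∧ ∃ᶠ x : ℕ in atTop, c * x ≤ (richG E D x : ℝ)

theorem gapWin {K E₁ : ℕ} (hK : 1 ≤ K) (h : PX K E₁) (ε : ℝ) (hε : 0 < ε) : ∃ M : ℕ, 0 < M ∧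
    ∀ N : ℕ, 0 < N → M ∣ N → ∃ L : ℕ, ∀ T : ℕ, L ≤ T → ∀ u : ℕ,
      (1 / 2 - ε) * T ≤ ({k : ℕ | u < k ∧ k ≤ u + T ∧ N * k ∈ {D : ℕ | GoodG (E₁ + 1) D}}.ncard : ℝ) := by
  classical
  refine Pool.Agent.W25.TF.tf4 Pool.Agent.W25.TF.s_maiF4 {D : ℕ | GoodG (E₁ + 1) D} 1
    ⟨K, hK, fun H hadm => ?_⟩ ε hε
  obtain ⟨m₀, hm₀⟩ := shift_richG
  obtain ⟨B0, hB0⟩ : ∃ B0, B0 = (univ : Finset (Fin 4 × Fin K)).sup (fun x => H x.1 x.2) := ⟨_, rfl⟩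
  have hHB : ∀ g i, H g i ≤ B0 := by
    intro g i
    rw [hB0]
    exact Finset.le_sup (f := fun x : Fin 4 × Fin K => H x.1 x.2) (mem_univ (g, i))
  obtain ⟨c, hc, h⟩ := h B0
  by_contra hcon
  push Not at hcon
  have hno : ∀ y y' : Fin 4 × Fin K, y.1 ≠ y'.1 → H y'.1 y'.2 < H y.1 y.2 →
      ∀ᶠ x : ℕ in atTop, (richG (E₁ + 1) (H y.1 y.2 - H y'.1 y'.2) x : ℝ) < c / 2 * x := by
    intro y y' hne hlt
    have h1 := hcon y'.1 y.1 y'.2 y.2 hne.symm hlt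
    have h2 : ¬ GoodG (E₁ + 1) (H y.1 y.2 - H y'.1 y'.2) := h1
    by_contra h3
    apply h2
    refine ⟨c / 2, by positivity, ?_⟩
    intro h4
    apply h3
    filter_upwards [h4] with x hx
    exact not_le.1 hx
  have hev : ∀ᶠ x : ℕ in atTop, ∀ y y' : Fin 4 × Fin K, y.1 ≠ y'.1 → H y'.1 y'.2 < H y.1 y.2 →
      (richG (E₁ + 1) (H y.1 y.2 - H y'.1 y'.2) x : ℝ) < c / 2 * x := by
    rw [eventually_all]
    intro y
    rw [eventually_all]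
    intro y'
    by_cases h1 : y.1 ≠ y'.1
    · by_cases h2 : H y'.1 y'.2 < H y.1 y.2
      · filter_upwards [hno y y' h1 h2] with x hx _ _
        exact hx
      · exact Eventually.of_forall fun x _ h => absurd h h2
    · exact Eventually.of_forall fun x h => absurd h h1
  have hlarge : ∀ᶠ x : ℕ in atTop, 2 * ((m₀ + 4 * B0 : ℕ) : ℝ) / c ≤ (x : ℝ) :=
    (tendsto_natCast_atTop_atTop (R := ℝ)).eventually_ge_atTop _
  obtain ⟨x, hx1, hx2, hx3⟩ := (h.and (hev.and hlarge)).exists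
  rw [div_le_iff₀ hc] at hx3
  obtain ⟨E, hE, hEr⟩ := hx1 H hadm.1 hHB (fun p hp _ => hadm.2 p hp (by
    rw [Nat.dvd_one]; exact hp.one_lt.ne'))
  obtain ⟨y, hy, y', hy', hne, hlt, hadj⟩ := neighbours H E hadm.1 hE
  have h1 := hm₀ E₁ (E.image (fun z => H z.1 z.2)) B0 x (H y'.1 y'.2) (H y.1 y.2)
    (mem_image.2 ⟨_, hy', rfl⟩) (mem_image.2 ⟨_, hy, rfl⟩) hlt (hHB _ _) hadj
  have h2 : (richE E₁ (E.image (fun z => H z.1 z.2)) B0 x : ℝ) ≤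
      (richG (E₁ + 1) (H y.1 y.2 - H y'.1 y'.2) x : ℝ) + ((m₀ + 4 * B0 : ℕ) : ℝ) := by
    have h3 := hHB y'.1 y'.2
    have : richE E₁ (E.image (fun z => H z.1 z.2)) B0 x ≤
      richG (E₁ + 1) (H y.1 y.2 - H y'.1 y'.2) x + (m₀ + 4 * B0) := by omega
    exact_mod_cast this
  have h4 := hx2 y y' hne hlt
  linarith

end Pool.Agent.Y827.SU
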